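import Pool.Agent.H81.NL.Germ

/-!
# Module Circle: groups of analytic circle diffeomorphisms with a global fixed point

PROOF. Take `t₀ : ℝ` with `(t₀ : AddCircle 1) = x₀` (`QuotientAddGroup.mk_surjective`). For `σ ∈ G` a lift `F`
satisfies `F t₀ = t₀ + k`, `k : ℤ` (`AddCircle.coe_eq_coe_iff...`, `QuotientAddGroup.eq`); replace `F` by `F - k`: so choose for
every `σ : G` a lift `F σ` with `F σ t₀ = t₀` and put `h σ x = F σ (t₀ + x) - t₀`.
`an`, `zero`, `pos` are clear. `mul`: `F (σ * τ)` and `F σ ∘ F τ` are continuous, agree at `t₀`, and their difference is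
integer valued (both are lifts of `σ * τ`), so they agree (a continuous integer valued function on `ℝ` is
constant: `IsPreconnected.constant` or: near `t₀` the difference is `< 1` in absolute value, which is enough
for germs). `faithful`: `F σ = id` near `t₀`, so everywhere (`AnalyticOnNhd.eq_of_eventuallyEq`), so `σ = 1`.
-/

set_option autoImplicit false

namespace Pool.Agent.H81.NL

open Filter Topology

theorem Circle_int_near {D : ℝ → ℝ} (hc : ContinuousAt D 0) (h0 : D 0 = 0)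
    (hint : ∀ x, ∃ k : ℤ, D x = k) : ∀ᶠ x in 𝓝 (0 : ℝ), D x = 0 := by
  have h1 : ∀ᶠ x in 𝓝 (0 : ℝ), D x ∈ Metric.ball (D 0) 1 :=
    hc.eventually_mem (Metric.ball_mem_nhds _ one_pos)
  filter_upwards [h1] with x hx
  rw [h0, mem_ball_zero_iff, Real.norm_eq_abs] at hx
  obtain ⟨k, hk⟩ := hint x
  rw [hk] at hx ⊢
  have h2 : |k| < 1 := by exact_mod_cast hx
  rw [Int.abs_lt_one_iff.mp h2]
  simp

theorem Circle_coe_eq {a b : ℝ} (h : (a : AddCircle (1 : ℝ)) = (b : AddCircle (1 : ℝ))) :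
    ∃ k : ℤ, b - a = k := by
  have h1 := (QuotientAddGroup.eq).mp h
  obtain ⟨k, hk⟩ := AddSubgroup.mem_zmultiples_iff.mp h1
  refine ⟨k, ?_⟩
  simp only [zsmul_eq_mul, mul_one] at hk
  rw [hk]
  ring

theorem Circle_coe_add_int (a : ℝ) (k : ℤ) :
    ((a + k : ℝ) : AddCircle (1 : ℝ)) = (a : AddCircle (1 : ℝ)) := by
  refine (QuotientAddGroup.eq).mpr ?_
  refine AddSubgroup.mem_zmultiples_iff.mpr ⟨-k, ?_⟩
  simp

theorem exists_germAct (G : Subgroup (Equiv.Perm (AddCircle (1 : ℝ))))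
    (hG : ∀ σ ∈ G, ∃ F : ℝ → ℝ, AnalyticOnNhd ℝ F Set.univ ∧ (∀ x : ℝ, F (x + 1) = F x + 1) ∧
      (∀ x : ℝ, 0 < deriv F x) ∧
      ∀ x : ℝ, σ ((x : AddCircle (1 : ℝ))) = ((F x : ℝ) : AddCircle (1 : ℝ)))
    (x₀ : AddCircle (1 : ℝ)) (hx₀ : ∀ σ ∈ G, σ x₀ = x₀) :
    ∃ h : ↥G → ℝ → ℝ, GermAct ↥G h := by
  obtain ⟨t₀, ht₀⟩ := QuotientAddGroup.mk_surjective x₀
  have key : ∀ σ : ↥G, ∃ F : ℝ → ℝ, AnalyticOnNhd ℝ F Set.univ ∧
      (∀ x : ℝ, 0 < deriv F x) ∧
      (∀ x : ℝ, σ.1 ((x : AddCircle (1 : ℝ))) = ((F x : ℝ) : AddCircle (1 : ℝ))) ∧ F t₀ = t₀ := by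
    intro σ
    obtain ⟨F, h1, -, h3, h4⟩ := hG σ.1 σ.2
    have h5 : ((F t₀ : ℝ) : AddCircle (1 : ℝ)) = (t₀ : AddCircle (1 : ℝ)) := by
      rw [← h4]
      have := hx₀ σ.1 σ.2
      rw [← ht₀] at this
      exact this
    obtain ⟨k, hk⟩ := Circle_coe_eq h5
    refine ⟨fun x => F x + k, ?_, ?_, ?_, ?_⟩
    · exact h1.add analyticOnNhd_const
    · intro x
      rw [deriv_add_const]
      exact h3 x
    · intro x
      rw [Circle_coe_add_int, h4]
    · simp only
      linarith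
  choose F hFan hFpos hFlift hFt using key
  refine ⟨fun σ x => F σ (t₀ + x) - t₀, ⟨?_, ?_, ?_, ?_, ?_⟩⟩
  · intro σ
    have h1 : AnalyticAt ℝ (fun x : ℝ => t₀ + x) 0 := analyticAt_const.add analyticAt_id
    have h2 : AnalyticAt ℝ (F σ) (t₀ + 0) := hFan σ _ (Set.mem_univ _)
    exact (AnalyticAt.fun_comp (f := fun x : ℝ => t₀ + x) h2 h1).sub analyticAt_const
  · intro σ
    simp [hFt σ]
  · intro σ
    have h1 : deriv (fun x : ℝ => F σ (t₀ + x) - t₀) 0 = deriv (F σ) t₀ := by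
      rw [deriv_sub_const, deriv_comp_const_add, add_zero]
    rw [h1]
    exact hFpos σ t₀
  · intro σ τ
    have hc1 : Continuous (F (σ * τ)) := (hFan (σ * τ)).continuous
    have hc2 : Continuous (F σ) := (hFan σ).continuous
    have hc3 : Continuous (F τ) := (hFan τ).continuous
    have h1 : ∀ᶠ x in 𝓝 (0 : ℝ), F σ (F τ (t₀ + x)) - F (σ * τ) (t₀ + x) = 0 := by
      refine Circle_int_near (D := fun x => F σ (F τ (t₀ + x)) - F (σ * τ) (t₀ + x)) ?_ ?_ ?_
      · exact (by fun_prop : Continuous (fun x => F σ (F τ (t₀ + x)) -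
          F (σ * τ) (t₀ + x))).continuousAt
      · simp [hFt]
      · intro x
        refine Circle_coe_eq ?_
        rw [← hFlift, ← hFlift, ← hFlift]
        rfl
    filter_upwards [h1] with x hx
    simp only [Function.comp_apply, add_sub_cancel]
    linarith
  · intro σ hσ
    have h1 : F σ =ᶠ[𝓝 t₀] id := by
      have h2 : Tendsto (fun y : ℝ => y - t₀) (𝓝 t₀) (𝓝 0) := by
        have := (continuous_sub_right t₀).tendsto t₀
        rwa [sub_self] at this
      filter_upwards [h2.eventually hσ] with y hy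
      simp only [add_sub_cancel, id] at hy
      simp only [id]
      linarith
    have h3 : F σ = id := (hFan σ).eq_of_eventuallyEq analyticOnNhd_id h1
    refine Subtype.ext (Equiv.ext fun y => ?_)
    obtain ⟨x, rfl⟩ := QuotientAddGroup.mk_surjective y
    have h4 := hFlift σ x
    rw [h3] at h4
    exact h4

end Pool.Agent.H81.NL
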