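import Mathlib

/-!
# Module JetA: Taylor polynomials of germs

PROOFS.
* `unique`: `P - Q = O(x ^ N)`; if a polynomial `R` is `O(x ^ N)` at `0` then `X ^ N ∣ R`: write
  `R = X ^ j * R'` with `R'.eval 0 ≠ 0` (`R ≠ 0`, e.g. `Polynomial.exists_eq_pow_rootMultiplicity_mul_and_not_dvd`
  at the root `0`, or `X_pow_dvd_iff` and the least nonzero coefficient); if `j < N`,
  dividing by `x ^ j` gives `R'(x) = O(x ^ (N - j)) → 0`, a contradiction.
* `exists_isJet`: `HasFPowerSeriesAt.isBigO_sub_partialSum_pow` (the partial sums in one variable are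
  polynomials: `FormalMultilinearSeries.partialSum`, `p.coeff`, `apply_eq_pow_smul_coeff`).
* `coeff_zero`: `f x - P x → f 0 - P 0` by continuity... or: `IsBigO` at the point `x = 0` itself is
  `‖f 0 - P.eval 0‖ ≤ C * ‖0 ^ N‖ = 0` (`IsBigO.eventually`, `mem_of_mem_nhds`), `N ≥ 1`.
* `comp`: `f (g x) - P (Q x) = (f - P) (g x) + (P (g x) - P (Q x))`; the first is `O(g(x) ^ N)` (`g` is
  continuous at `0`, `g 0 = 0`, `IsBigO.comp_tendsto`) and `g x = O(x)` (`g = Q + O(x ^ N)`, `N ≥ 1`, `X ∣ Q` by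
  `coeff_zero`), the second is `O(g x - Q x)` (a polynomial is locally Lipschitz / `X - Y` divides
  `P(X) - P(Y)`: `Polynomial.sub_dvd_eval_sub` with a bounded quotient, or differentiability at 0 is not
  enough; use `P.eval a - P.eval b = (a - b) * q a b`, `q` continuous; e.g. by induction on `P`).
-/

set_option autoImplicit false

namespace Pool.Agent.H81.NL

open Polynomial Filter Topology Asymptotics

/-- `P` is a Taylor polynomial of `f` at `0` modulo `x ^ N`. -/
def IsJet (N : ℕ) (f : ℝ → ℝ) (P : ℝ[X]) : Prop :=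
  (fun x => f x - P.eval x) =O[𝓝 0] (fun x : ℝ => x ^ N)

variable {N : ℕ} {f g : ℝ → ℝ} {P Q : ℝ[X]}

theorem JetA_core {R u : ℝ → ℝ} {j : ℕ} (hR : ∀ᶠ x in 𝓝 (0 : ℝ), R x = x ^ j * u x)
    (hu : ContinuousAt u 0) (hu0 : u 0 ≠ 0)
    (hO : R =O[𝓝 0] (fun x : ℝ => x ^ N)) : N ≤ j := by
  by_contra hlt
  push Not at hlt
  obtain ⟨C, hC⟩ := hO.bound
  have h1 : ∀ᶠ x in 𝓝[≠] (0 : ℝ), |u x| ≤ C * |x| ^ (N - j) := by
    have h2 : ∀ᶠ x in 𝓝[≠] (0 : ℝ), R x = x ^ j * u x := hR.filter_mono nhdsWithin_le_nhds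
    have h3 : ∀ᶠ x in 𝓝[≠] (0 : ℝ), ‖R x‖ ≤ C * ‖x ^ N‖ := hC.filter_mono nhdsWithin_le_nhds
    have h4 : ∀ᶠ x in 𝓝[≠] (0 : ℝ), x ≠ 0 := eventually_mem_nhdsWithin
    filter_upwards [h2, h3, h4] with x hx2 hx3 hx4
    have hpos : 0 < |x| ^ j := pow_pos (abs_pos.mpr hx4) j
    rw [hx2, Real.norm_eq_abs, Real.norm_eq_abs, abs_mul, abs_pow, abs_pow] at hx3
    have h5 : |x| ^ N = |x| ^ j * |x| ^ (N - j) := by
      rw [← pow_add]; congr 1; omega
    rw [h5] at hx3
    have h6 : |x| ^ j * |u x| ≤ |x| ^ j * (C * |x| ^ (N - j)) := by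
      calc |x| ^ j * |u x| ≤ C * (|x| ^ j * |x| ^ (N - j)) := hx3
        _ = |x| ^ j * (C * |x| ^ (N - j)) := by ring
    exact le_of_mul_le_mul_left h6 hpos
  have t1 : Tendsto (fun x => |u x|) (𝓝[≠] (0 : ℝ)) (𝓝 |u 0|) :=
    (hu.tendsto.mono_left nhdsWithin_le_nhds).abs
  have t2 : Tendsto (fun x : ℝ => C * |x| ^ (N - j)) (𝓝[≠] (0 : ℝ)) (𝓝 (C * |(0 : ℝ)| ^ (N - j))) := by
    have : Continuous (fun x : ℝ => C * |x| ^ (N - j)) := by fun_prop
    exact (this.tendsto 0).mono_left nhdsWithin_le_nhds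
  have h7 := le_of_tendsto_of_tendsto t1 t2 h1
  rw [abs_zero, zero_pow (by omega), mul_zero] at h7
  exact hu0 (abs_eq_zero.mp (le_antisymm h7 (abs_nonneg _)))

theorem JetA_at_zero (hN : 1 ≤ N) (hP : IsJet N f P) : f 0 = P.eval 0 := by
  obtain ⟨C, hC⟩ := IsBigO.bound hP
  have h1 := mem_of_mem_nhds hC
  simp only [Set.mem_ofPred_eq] at h1
  rw [zero_pow (by omega), norm_zero, mul_zero] at h1
  exact sub_eq_zero.mp (norm_le_zero_iff.mp h1)

theorem isJet_poly (N : ℕ) (P : ℝ[X]) : IsJet N (fun x => P.eval x) P := by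
  unfold IsJet
  simp only [sub_self]
  exact isBigO_zero _ _

theorem IsJet.unique (hP : IsJet N f P) (hQ : IsJet N f Q) : X ^ N ∣ P - Q := by
  by_cases hne : P - Q = 0
  · rw [hne]; exact dvd_zero _
  obtain ⟨R, hR, hnd⟩ := Polynomial.exists_eq_pow_rootMultiplicity_mul_and_not_dvd (P - Q) hne 0
  rw [map_zero, sub_zero] at hR hnd
  have hR0 : R.eval 0 ≠ 0 := by
    intro h
    apply hnd
    have : (X - C (0 : ℝ)) ∣ R := Polynomial.dvd_iff_isRoot.mpr h
    rwa [map_zero, sub_zero] at this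
  have hO : (fun x : ℝ => (P - Q).eval x) =O[𝓝 0] (fun x : ℝ => x ^ N) := by
    have h := IsBigO.sub hQ hP
    refine h.congr_left ?_
    intro x
    simp only [eval_sub]
    ring
  have hle : N ≤ (P - Q).rootMultiplicity 0 := by
    refine JetA_core (u := fun x => R.eval x) ?_ R.continuous.continuousAt hR0 hO
    refine Eventually.of_forall fun x => ?_
    conv_lhs => rw [hR]
    simp
  rw [hR]
  exact Dvd.dvd.mul_right (pow_dvd_pow X hle) R

theorem IsJet.congr (hP : IsJet N f P) (h : f =ᶠ[𝓝 0] g) : IsJet N g P := by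
  unfold IsJet at *
  refine hP.congr' ?_ EventuallyEq.rfl
  filter_upwards [h] with x hx
  rw [hx]

theorem IsJet.of_dvd (hP : IsJet N f P) (h : X ^ N ∣ P - Q) : IsJet N f Q := by
  obtain ⟨R, hR⟩ := h
  have h1 : (fun x : ℝ => (P - Q).eval x) =O[𝓝 0] (fun x : ℝ => x ^ N) := by
    rw [hR]
    simp only [eval_mul, eval_pow, eval_X]
    have h2 : (fun x : ℝ => R.eval x) =O[𝓝 0] (fun _ : ℝ => (1 : ℝ)) :=
      R.continuous.continuousAt.tendsto.isBigO_one ℝ
    have h3 := (isBigO_refl (fun x : ℝ => x ^ N) (𝓝 0)).mul h2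
    simpa using h3
  unfold IsJet at *
  refine (hP.add h1).congr_left ?_
  intro x
  simp only [eval_sub]
  ring

theorem IsJet.mono {M : ℕ} (hP : IsJet N f P) (h : M ≤ N) : IsJet M f P := by
  unfold IsJet at *
  refine hP.trans ?_
  have h2 : (fun x : ℝ => x ^ (N - M)) =O[𝓝 0] (fun _ : ℝ => (1 : ℝ)) :=
    ((continuous_pow (N - M)).continuousAt.tendsto (x := (0 : ℝ))).isBigO_one ℝ
  have h3 := (isBigO_refl (fun x : ℝ => x ^ M) (𝓝 0)).mul h2
  refine (h3.congr_left ?_).congr_right ?_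
  · intro x
    rw [← pow_add]; congr 1; omega
  · intro x; ring

theorem exists_isJet (hf : AnalyticAt ℝ f 0) (N : ℕ) : ∃ P : ℝ[X], IsJet N f P := by
  obtain ⟨p, hp⟩ := hf
  have h := hp.isBigO_sub_partialSum_pow N
  refine ⟨∑ k ∈ Finset.range N, C (p.coeff k) * X ^ k, ?_⟩
  unfold IsJet
  have h2 : (fun y : ℝ => f (0 + y) - p.partialSum N y) =O[𝓝 0] fun y : ℝ => y ^ N := by
    refine h.trans ?_
    refine IsBigO.of_norm_right ?_
    refine (isBigO_refl _ _).congr_right ?_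
    intro x
    rw [norm_pow]
  refine h2.congr_left ?_
  intro x
  rw [zero_add, FormalMultilinearSeries.partialSum, eval_finsetSum]
  congr 1
  refine Finset.sum_congr rfl ?_
  intro k _
  rw [FormalMultilinearSeries.apply_eq_pow_smul_coeff, eval_mul, eval_C, eval_pow, eval_X,
    smul_eq_mul]
  ring

theorem IsJet.coeff_zero (hN : 1 ≤ N) (hP : IsJet N f P) (h0 : f 0 = 0) : P.coeff 0 = 0 := by
  have := JetA_at_zero hN hP
  rw [h0] at this
  rw [Polynomial.coeff_zero_eq_eval_zero]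
  exact this.symm

theorem IsJet.comp (hN : 1 ≤ N) (hf : IsJet N f P) (hg : IsJet N g Q) (hg0 : g 0 = 0)
    (hc : ContinuousAt g 0) : IsJet N (f ∘ g) (P.comp Q) := by
  have hQ0 : Q.eval 0 = 0 := by rw [← JetA_at_zero hN hg, hg0]
  have tg : Tendsto g (𝓝 0) (𝓝 0) := by
    have := hc.tendsto
    rwa [hg0] at this
  have tQ : Tendsto (fun x => Q.eval x) (𝓝 0) (𝓝 0) := by
    have := Q.continuous.tendsto 0
    rwa [hQ0] at this
  -- `g x = O (x)`
  have hQx : (fun x => Q.eval x) =O[𝓝 0] (fun x : ℝ => x) := by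
    have h1 : (fun x : ℝ => Q.eval x - Q.eval 0) =O[𝓝 0] fun x : ℝ => x - 0 :=
      (Q.hasDerivAt 0).isBigO_sub
    simpa [hQ0] using h1
  have hgx : g =O[𝓝 0] (fun x : ℝ => x) := by
    have h1 : IsJet 1 g Q := hg.mono hN
    unfold IsJet at h1
    have h2 : (fun x => g x - Q.eval x) =O[𝓝 0] (fun x : ℝ => x) := by
      simpa using h1
    have h3 := h2.add hQx
    refine h3.congr_left ?_
    intro x
    ring
  -- first part
  have h1 : (fun x => f (g x) - P.eval (g x)) =O[𝓝 0] (fun x : ℝ => x ^ N) := by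
    have h2 : (fun x => f (g x) - P.eval (g x)) =O[𝓝 0] (fun x => (g x) ^ N) := by
      have := IsBigO.comp_tendsto hf tg
      exact this
    exact h2.trans (hgx.pow N)
  -- second part
  have h2 : (fun x => P.eval (g x) - P.eval (Q.eval x)) =O[𝓝 0] (fun x : ℝ => x ^ N) := by
    have h3 : (fun p : ℝ × ℝ => P.eval p.1 - P.eval p.2) =O[𝓝 ((0 : ℝ), (0 : ℝ))]
        (fun p : ℝ × ℝ => p.1 - p.2) :=
      (P.hasStrictDerivAt 0).hasStrictFDerivAt.isBigO_sub
    have t3 : Tendsto (fun x => (g x, Q.eval x)) (𝓝 0) (𝓝 ((0 : ℝ), (0 : ℝ))) :=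
      tg.prodMk_nhds tQ
    have h4 := h3.comp_tendsto t3
    exact IsBigO.trans h4 hg
  unfold IsJet
  refine (h1.add h2).congr_left ?_
  intro x
  simp only [Function.comp_apply, eval_comp]
  ring

/-- An analytic germ all of whose Taylor polynomials are `X` is the identity. -/
theorem eventually_id (hf : AnalyticAt ℝ f 0) (h : ∀ N, IsJet N f X) : f =ᶠ[𝓝 0] id := by
  have ha : AnalyticAt ℝ (fun x => f x - x) 0 := hf.sub analyticAt_id
  by_cases hz : ∀ᶠ x in 𝓝 (0 : ℝ), f x - x = 0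
  · filter_upwards [hz] with x hx
    exact sub_eq_zero.mp hx
  · exfalso
    obtain ⟨n, u, hu, hu0, hev⟩ :=
      (ha.exists_eventuallyEq_pow_smul_nonzero_iff).mpr hz
    have hO : (fun x => f x - x) =O[𝓝 0] (fun x : ℝ => x ^ (n + 1)) := by
      have := h (n + 1)
      unfold IsJet at this
      simpa using this
    have := JetA_core (N := n + 1) (j := n) (u := u) ?_ hu.continuousAt hu0 hO
    · omega
    · filter_upwards [hev] with x hx
      simpa using hx

/-- The linear coefficient is the derivative. -/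
theorem IsJet.coeff_one (hN : 2 ≤ N) (hP : IsJet N f P) : P.coeff 1 = deriv f 0 := by
  have h0 : f 0 = P.eval 0 := JetA_at_zero (by omega) hP
  have h2 : IsJet 2 f P := hP.mono hN
  have h3 : (fun x => f x - P.eval x) =o[𝓝 0] (fun x : ℝ => x) := by
    refine IsBigO.trans_isLittleO h2 ?_
    have : (fun x : ℝ => x ^ 2) =o[𝓝 0] (fun x : ℝ => x ^ 1) :=
      isLittleO_pow_pow (by norm_num)
    simpa using this
  have h4 : HasDerivAt (fun x => f x - P.eval x) 0 0 := by
    rw [hasDerivAt_iff_isLittleO]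
    refine (h3.congr_left ?_).congr_right ?_
    · intro x
      simp [h0]
    · intro x; simp
  have h5 : HasDerivAt f (P.derivative.eval 0) 0 := by
    have := h4.add (P.hasDerivAt 0)
    rw [zero_add] at this
    refine this.congr_of_eventuallyEq ?_
    refine Eventually.of_forall fun x => ?_
    simp
  rw [h5.deriv, ← Polynomial.coeff_zero_eq_eval_zero, Polynomial.coeff_derivative]
  simp

end Pool.Agent.H81.NL
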