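import Pool.Agent.H81.NL.Aut
import Pool.Agent.H81.NL.JetA

/-!
# Module JetB: the matrices of the jets of analytic germs

PROOFS. All from JetA and Mat.
* `jet_eq`: `IsJet.unique` and `MP_congr`. `jet_comp`: `exists_isJet`, `IsJet.comp`, `IsJet.coeff_zero`, `MP_comp`.
* `eventually_id_of_jet`: row `1` of `jet m f = MP m P` is the row of the coefficients of `P`
  (`P` an `(m + 2)`-jet): if it is the row of the identity matrix then `X ^ (m + 2) ∣ P - X`, so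
  `IsJet (m + 2) f X` for all `m` (`IsJet.of_dvd`), `IsJet.mono`, `eventually_id`.
* `fl_jet`: `P = X + X ^ 2 * R + ...`: `X ^ 2 ∣ P - X` by `coeff_zero`, `coeff_one`, so `X ^ (i + 1) ∣ P ^ i - X ^ i`
  (`Lead_MP` with `j = 1`, `α = P.coeff 2` and `Lead.fl` gives exactly this; the case is
  `X ^ 3 ∣ P - X - C α * X ^ 2`).
* `exists_lead_jet`: not all jets are `X` (`eventually_id`), so let `N` be minimal with `¬ IsJet (N + 1) f X` and `IsJet N f X`
  (`N ≥ 2` by `coeff_zero`, `coeff_one`); `k = N - 1 ≥ 1`; for an `(N + 1)`-jet `P`: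
  `X ^ N ∣ P - X`, `P - X = C α * X ^ N` modulo `X ^ (N + 1)`, `α ≠ 0`. For any `m` and an
  `(m + 2)`-jet `P'` of `f`: if `N + 1 ≤ m + 2` then `P'` is also an `(N + 1)`-jet so
  `X ^ (k + 2) ∣ P' - X - C α * X ^ (k + 1)`, `Lead_MP`. If `N + 1 > m + 2`, `P'` may be replaced by
  a `(N + 1)`-jet (also an `(m + 2)`-jet, `jet_eq`), same argument.
-/

set_option autoImplicit false

namespace Pool.Agent.H81.NL

open Polynomial Filter Topology

open Classical in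
/-- The matrix of the jet of order `m + 1` of the germ of `f` at `0`. -/
noncomputable def jet (m : ℕ) (f : ℝ → ℝ) : Mt m :=
  if h : ∃ P : ℝ[X], IsJet (m + 2) f P then MP m h.choose else 0

variable {m : ℕ} {f g : ℝ → ℝ} {P : ℝ[X]}

theorem JetB_dvd {Q : ℝ[X]} {k : ℕ} (hk : 1 ≤ k)
    (h : ∀ j, j < k + 1 → Q.coeff j = (X : ℝ[X]).coeff j) :
    X ^ (k + 2) ∣ Q - X - C (Q.coeff (k + 1)) * X ^ (k + 1) := by
  rw [X_pow_dvd_iff]
  intro j hj
  rw [coeff_sub, coeff_sub, coeff_C_mul, coeff_X_pow]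
  by_cases hjk : j = k + 1
  · rw [if_pos hjk, hjk, mul_one, coeff_X, if_neg (by omega), sub_zero, sub_self]
  · rw [if_neg hjk, mul_zero, sub_zero, h j (by omega), sub_self]

theorem jet_eq (h : IsJet (m + 2) f P) : jet m f = MP m P := by
  have hex : ∃ P : ℝ[X], IsJet (m + 2) f P := ⟨P, h⟩
  unfold jet
  rw [dif_pos hex]
  exact MP_congr (hex.choose_spec.unique h)

theorem jet_poly (m : ℕ) (P : ℝ[X]) : jet m (fun x => P.eval x) = MP m P :=
  jet_eq (isJet_poly _ _)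

theorem jet_id (m : ℕ) : jet m id = 1 := by
  have h : (id : ℝ → ℝ) = fun x => (X : ℝ[X]).eval x := by
    funext x
    simp
  rw [h, jet_poly, MP_X]

theorem jet_congr (h : f =ᶠ[𝓝 0] g) : jet m f = jet m g := by
  by_cases hex : ∃ P : ℝ[X], IsJet (m + 2) f P
  · obtain ⟨P, hP⟩ := hex
    rw [jet_eq hP, jet_eq (hP.congr h)]
  · have hex' : ¬ ∃ P : ℝ[X], IsJet (m + 2) g P := by
      rintro ⟨P, hP⟩
      exact hex ⟨P, hP.congr h.symm⟩
    unfold jet
    rw [dif_neg hex, dif_neg hex']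

theorem jet_comp (hf : AnalyticAt ℝ f 0) (hg : AnalyticAt ℝ g 0) (hf0 : f 0 = 0)
    (hg0 : g 0 = 0) : jet m (f ∘ g) = jet m f * jet m g := by
  obtain ⟨P, hP⟩ := exists_isJet hf (m + 2)
  obtain ⟨Q, hQ⟩ := exists_isJet hg (m + 2)
  rw [jet_eq hP, jet_eq hQ, jet_eq (hP.comp (by omega) hQ hg0 hg.continuousAt),
    MP_comp _ _ _ (hQ.coeff_zero (by omega) hg0)]

theorem eventually_id_of_jet (hf : AnalyticAt ℝ f 0) (h : ∀ m, jet m f = 1) :
    f =ᶠ[𝓝 0] id := by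
  refine eventually_id hf fun N => ?_
  obtain ⟨P, hP⟩ := exists_isJet hf (N + 2)
  refine IsJet.mono (IsJet.of_dvd hP (dvd_of_coeff_eq fun j hj => ?_)) (by omega : N ≤ N + 2)
  have h1 := h N
  rw [jet_eq hP, ← MP_X] at h1
  have h2 := congrFun (congrFun h1 (⟨1, by omega⟩ : Fin (N + 2))) ⟨j, hj⟩
  rw [MP_apply, MP_apply] at h2
  simpa using h2

theorem exists_jet_eq (hf : AnalyticAt ℝ f 0) (hf0 : f 0 = 0) (m : ℕ) :
    ∃ P : ℝ[X], P.coeff 0 = 0 ∧ jet m f = MP m P := by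
  obtain ⟨P, hP⟩ := exists_isJet hf (m + 2)
  exact ⟨P, hP.coeff_zero (by omega) hf0, jet_eq hP⟩

theorem fl_jet (hf : AnalyticAt ℝ f 0) (hf0 : f 0 = 0) (hf1 : deriv f 0 = 1) :
    Fl 1 (jet m f - 1) := by
  obtain ⟨P, hP⟩ := exists_isJet hf (m + 2)
  rw [jet_eq hP]
  refine Lead.fl (α := P.coeff 2) (Lead_MP le_rfl (JetB_dvd le_rfl fun j hj => ?_))
  obtain rfl | rfl | h2 : j = 0 ∨ j = 1 ∨ 2 ≤ j := by omega
  · rw [hP.coeff_zero (by omega) hf0, coeff_X_zero]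
  · rw [hP.coeff_one (by omega), hf1, coeff_X_one]
  · omega

theorem exists_lead_jet (hf : AnalyticAt ℝ f 0) (hf0 : f 0 = 0) (hf1 : deriv f 0 = 1)
    (hne : ¬ f =ᶠ[𝓝 0] id) :
    ∃ k : ℕ, 1 ≤ k ∧ ∃ α : ℝ, α ≠ 0 ∧ ∀ m, Lead k α (jet m f) := by
  classical
  have hex : ∃ N, ¬ IsJet N f X := by
    by_contra hcon
    exact hne (eventually_id hf fun N => by
      by_contra h
      exact hcon ⟨N, h⟩)
  have h2 : IsJet 2 f X := by
    obtain ⟨P, hP⟩ := exists_isJet hf 2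
    refine IsJet.of_dvd hP (dvd_of_coeff_eq fun j hj => ?_)
    obtain rfl | rfl : j = 0 ∨ j = 1 := by omega
    · rw [hP.coeff_zero (by omega) hf0, coeff_X_zero]
    · rw [hP.coeff_one (by omega), hf1, coeff_X_one]
  have h3 : 3 ≤ Nat.find hex := by
    by_contra hcon
    exact Nat.find_spec hex (h2.mono (by omega))
  obtain ⟨k, hk⟩ : ∃ k, Nat.find hex = k + 2 := ⟨Nat.find hex - 2, by omega⟩
  have hk1 : IsJet (k + 1) f X := by
    have := Nat.find_min hex (m := k + 1) (by omega)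
    rwa [not_not] at this
  have hk2 : ¬ IsJet (k + 2) f X := by
    rw [← hk]
    exact Nat.find_spec hex
  obtain ⟨P, hP⟩ := exists_isJet hf (k + 2)
  have hP1 : X ^ (k + 1) ∣ P - X := (hP.mono (by omega : k + 1 ≤ k + 2)).unique hk1
  have hP2 : X ^ (k + 2) ∣ P - X - C (P.coeff (k + 1)) * X ^ (k + 1) :=
    JetB_dvd (by omega) fun j hj => coeff_eq_of_dvd hP1 (by omega)
  refine ⟨k, by omega, P.coeff (k + 1), ?_, fun m => ?_⟩
  · intro h0
    rw [h0, C_0, zero_mul, sub_zero] at hP2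
    exact hk2 (hP.of_dvd hP2)
  · obtain ⟨Q, hQ⟩ := exists_isJet hf (m + k + 2)
    rw [jet_eq (hQ.mono (by omega : m + 2 ≤ m + k + 2))]
    refine Lead_MP (by omega) ?_
    have h4 : X ^ (k + 2) ∣ Q - P := (hQ.mono (by omega : k + 2 ≤ m + k + 2)).unique hP
    have h5 := dvd_add h4 hP2
    rwa [show Q - P + (P - X - C (P.coeff (k + 1)) * X ^ (k + 1)) =
      Q - X - C (P.coeff (k + 1)) * X ^ (k + 1) by ring] at h5

end Pool.Agent.H81.NL
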