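import Pool.Agent.H81.NL.Gen
import Pool.Agent.H81.NL.JetB

/-!
# Module Germ: groups of germs which satisfy a law

`GermAct Γ h` : the group `Γ` acts faithfully by germs at `0` of orientation preserving real-analytic
diffeomorphisms `h g` fixing `0`.

PROOFS.
* `one`: `h 1 = h 1 ∘ h 1` near `0`; put `u = h 1`, `u' (0) > 0`, so `u` is locally injective
  (`HasStrictDerivAt.injOn_of_...`, or: `AnalyticAt`, `deriv ≠ 0`, local inverse); `u (u x) = u x` gives
  `u x = x`. (The statement `h 1 =ᶠ id`.)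
* `jetHom`: on the commutator subgroup the derivative at `0` is `1` (chain rule: `g ↦ deriv (h g) 0` is a
  homomorphism to the positive reals, so trivial on commutators; `Subgroup.closure_induction` or
  `commutator_le`/`Abelianization.commutator_subset_ker`), so `Fl 1 (jet n (h x) - 1)` (`fl_jet`), determinant one
  (`det_of_Fl`), multiplicative by `jet_comp`, `jet_congr`.
* `two_orders`: `derivedSeries Γ 2 ≠ ⊥` gives `x y ∈ commutator Γ` with `c = x * y * x⁻¹ * y⁻¹ ≠ 1`. So `x, y, c` are not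
  trivial, their germs are not the identity; `exists_lead_jet` for all three: `k, α`, `m, β`,
  `q, γ` (all nonzero). If `k ≠ m` done (`x`, `y`). If `k = m` then `Lead_comm` in `SLn n` says
  `Lead (2 k) 0`, i.e. `Fl (2 k + 1) (mt (jetHom n c) - 1)` for all `n`, so `q ≥ 2 k + 1 > k` (take `n ≥ q`:
  if `q ≤ 2 k` the entry `(1, 1 + q)` of `mt (jetHom n c) - 1` is `γ ≠ 0` by `Lead q γ` and zero by `Fl (2 k + 1)`),
  done with `x`, `c`.
* `germ_law`: `S = (jetHom n).range`, which satisfies the law; `LG_law`, `LG S ∋ Es n k _ t, Es n m _ t`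
  (`Es_mem_of_S`), `es_large`, `d = k.gcd m`, `N = k * m + k + m`, `mem_LG_of_gr` with `J = N`
  (`d * J ≥ k * m + k + m`).
-/

set_option autoImplicit false

namespace Pool.Agent.H81.NL

open Polynomial Filter Topology

/-- `Γ` acts faithfully by germs at `0` of real-analytic diffeomorphisms. -/
structure GermAct (Γ : Type) [Group Γ] (h : Γ → ℝ → ℝ) : Prop where
  an : ∀ g, AnalyticAt ℝ (h g) 0
  zero : ∀ g, h g 0 = 0
  pos : ∀ g, 0 < deriv (h g) 0
  mul : ∀ g g', h (g * g') =ᶠ[𝓝 0] h g ∘ h g'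
  faithful : ∀ g, h g =ᶠ[𝓝 0] id → g = 1

variable {Γ : Type} [Group Γ] {h : Γ → ℝ → ℝ}

theorem GermAct.one (H : GermAct Γ h) : h 1 =ᶠ[𝓝 0] id := by
  have h1 : h 1 =ᶠ[𝓝 0] h 1 ∘ h 1 := by
    have := H.mul 1 1
    rwa [mul_one] at this
  have hs : HasStrictDerivAt (h 1) (deriv (h 1) 0) 0 := (H.an 1).hasStrictDerivAt
  have hne : deriv (h 1) 0 ≠ 0 := (H.pos 1).ne'
  have h2 : ∀ᶠ x in 𝓝 (0 : ℝ), hs.localInverse (h 1) _ 0 hne (h 1 x) = x :=
    hs.eventually_left_inverse hne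
  have hc : Tendsto (h 1) (𝓝 0) (𝓝 0) := by
    have := (H.an 1).continuousAt.tendsto
    rwa [H.zero 1] at this
  have h3 := hc.eventually h2
  filter_upwards [h1, h2, h3] with x e1 e2 e3
  have e4 : h 1 x = h 1 (h 1 x) := e1
  rw [← e4, e2] at e3
  rw [id]
  exact e3.symm

/-- The derivative at `0`. -/
noncomputable def GermAct.germD (H : GermAct Γ h) : Γ →* ℝˣ where
  toFun g := Units.mk0 (deriv (h g) 0) (H.pos g).ne'
  map_one' := by
    apply Units.ext
    rw [Units.val_mk0, Units.val_one, H.one.deriv_eq]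
    exact deriv_id 0
  map_mul' g g' := by
    apply Units.ext
    rw [Units.val_mul, Units.val_mk0, Units.val_mk0, Units.val_mk0, (H.mul g g').deriv_eq]
    have h1 : DifferentiableAt ℝ (h g) (h g' 0) := by
      rw [H.zero g']
      exact (H.an g).differentiableAt
    rw [deriv_comp 0 h1 (H.an g').differentiableAt, H.zero g']

theorem GermAct.deriv_comm (H : GermAct Γ h) (x : commutator Γ) : deriv (h x) 0 = 1 := by
  have h1 := Abelianization.commutator_subset_ker H.germD x.2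
  have h2 : H.germD x = 1 := h1
  have h3 := congrArg (fun u : ℝˣ => (u : ℝ)) h2
  exact h3

theorem GermAct.exists_hom (H : GermAct Γ h) (n : ℕ) :
    ∃ M : commutator Γ →* SLn n, ∀ x, mt (M x) = jet n (h x) := by
  have hf : ∀ x : commutator Γ, (jet n (h x)).det = 1 := fun x =>
    det_of_Fl (fl_jet (H.an x) (H.zero x) (H.deriv_comm x))
  refine ⟨{ toFun := fun x => ⟨jet n (h x), hf x⟩, map_one' := ?_, map_mul' := ?_ },
    fun x => rfl⟩
  · apply mt_inj
    show jet n (h ((1 : commutator Γ) : Γ)) = 1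
    rw [Subgroup.coe_one, jet_congr H.one, jet_id]
  · intro x y
    apply mt_inj
    show jet n (h ((x * y : commutator Γ) : Γ)) = jet n (h x) * jet n (h y)
    rw [Subgroup.coe_mul, jet_congr (H.mul x y), jet_comp (H.an x) (H.an y) (H.zero x) (H.zero y)]

theorem germ_exists_lead (H : GermAct Γ h) (x : commutator Γ) (hx : (x : Γ) ≠ 1) :
    ∃ k : ℕ, 1 ≤ k ∧ ∃ α : ℝ, α ≠ 0 ∧ ∀ m, Lead k α (jet m (h x)) :=
  exists_lead_jet (H.an x) (H.zero x) (H.deriv_comm x) fun e => hx (H.faithful x e)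

theorem GermAct.two_orders (H : GermAct Γ h) (hd : derivedSeries Γ 2 ≠ ⊥) :
    ∃ x y : commutator Γ, ∃ k m : ℕ, 1 ≤ k ∧ 1 ≤ m ∧ k ≠ m ∧ ∃ α β : ℝ, α ≠ 0 ∧ β ≠ 0 ∧
      ∀ n, Lead k α (jet n (h x)) ∧ Lead m β (jet n (h y)) := by
  have h1 : ∃ x y : commutator Γ, x * y * x⁻¹ * y⁻¹ ≠ 1 := by
    by_contra hcon
    push Not at hcon
    apply hd
    rw [derivedSeries_succ, derivedSeries_one, eq_bot_iff, Subgroup.commutator_le]
    intro a ha b hb
    have h2 := hcon ⟨a, ha⟩ ⟨b, hb⟩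
    have h3 := congrArg (fun z : commutator Γ => (z : Γ)) h2
    rw [Subgroup.mem_bot]
    exact h3
  obtain ⟨x, y, hxy⟩ := h1
  have hx : (x : Γ) ≠ 1 := by
    intro e
    have e' : x = 1 := Subtype.ext e
    apply hxy
    rw [e']
    group
  have hy : (y : Γ) ≠ 1 := by
    intro e
    have e' : y = 1 := Subtype.ext e
    apply hxy
    rw [e']
    group
  have hc : ((x * y * x⁻¹ * y⁻¹ : commutator Γ) : Γ) ≠ 1 := by
    intro e
    exact hxy (Subtype.ext e)
  obtain ⟨k, hk, α, hα, hkl⟩ := germ_exists_lead H x hx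
  obtain ⟨m, hm, β, hβ, hml⟩ := germ_exists_lead H y hy
  obtain ⟨q, hq, γ, hγ, hql⟩ := germ_exists_lead H _ hc
  by_cases hkm : k = m
  · subst hkm
    refine ⟨x, x * y * x⁻¹ * y⁻¹, k, q, hk, hq, ?_, α, γ, hα, hγ, fun n => ⟨hkl n, hql n⟩⟩
    rintro rfl
    obtain ⟨M, hM⟩ := H.exists_hom k
    have h2 : Lead k α (mt (M x)) := by rw [hM]; exact hkl k
    have h3 : Lead k β (mt (M y)) := by rw [hM]; exact hml k
    have h4 := Lead_comm hk hk h2 h3
    rw [sub_self, mul_zero, Lead_zero_iff, ← map_inv, ← map_inv, ← map_mul, ← map_mul, ← map_mul,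
      hM] at h4
    have h5 := hql k
    have hlt : 1 + k < k + 2 := by omega
    have h6 := h4 (1 : Fin (k + 2)) ⟨1 + k, hlt⟩ (by
      rw [Fin.val_one]
      simp only
      omega)
    have h7 := h5 (1 : Fin (k + 2)) ⟨1 + k, hlt⟩ (by
      rw [Fin.val_one]
      simp only
      omega)
    rw [Matrix.sub_apply, h6, Matrix.smul_apply, Dm_apply, if_pos (by rw [Fin.val_one]),
      Fin.val_one, smul_eq_mul, Nat.cast_one, mul_one, zero_sub, neg_eq_zero] at h7
    exact hγ h7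
  · exact ⟨x, y, k, m, hk, hm, hkm, α, β, hα, hβ, fun n => ⟨hkl n, hml n⟩⟩

theorem GermAct.law (H : GermAct Γ h) (hd : derivedSeries Γ 2 ≠ ⊥) {r : ℕ}
    {w : FreeGroup (Fin r)} (hw : ∀ f : Fin r → Γ, FreeGroup.lift f w = 1) :
    ∃ d N : ℕ, 1 ≤ d ∧ 1 ≤ N ∧ ∀ (n : ℕ) (f : Fin r → SLn n),
      (∀ a, IsAut (f a) ∧ Gr d (mt (f a)) ∧ Fl (d * N) (mt (f a) - 1)) →
        FreeGroup.lift f w = 1 := by
  obtain ⟨x, y, k, m, hk, hm, hkm, α, β, hα, hβ, hxy⟩ := H.two_orders hd
  have hd1 : 1 ≤ k.gcd m := Nat.gcd_pos_of_pos_left _ hk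
  refine ⟨k.gcd m, k * m + k + m, hd1, by omega, ?_⟩
  intro n f hf
  obtain ⟨M, hM⟩ := H.exists_hom n
  have hS : ∀ f : Fin r → SLn n, (∀ a, f a ∈ M.range) → FreeGroup.lift f w = 1 := by
    intro f hf
    choose c hc using fun a => MonoidHom.mem_range.1 (hf a)
    have e1 : FreeGroup.lift f = M.comp (FreeGroup.lift c) := by
      ext1 a
      simp [hc]
    have e2 : (commutator Γ).subtype.comp (FreeGroup.lift c) =
        FreeGroup.lift fun a => ((c a : commutator Γ) : Γ) := by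
      ext1 a
      simp
    have e3 : FreeGroup.lift c w = 1 := by
      apply Subtype.ext
      have := DFunLike.congr_fun e2 w
      rw [hw] at this
      exact this
    rw [e1, MonoidHom.comp_apply, e3, map_one]
  have hx : Lead k α (mt (M x)) := by rw [hM]; exact (hxy n).1
  have hy : Lead m β (mt (M y)) := by rw [hM]; exact (hxy n).2
  have h1 : InE M.range k := fun hj t => Es_mem_of_S hj hx hα (MonoidHom.mem_range.2 ⟨x, rfl⟩) t
  have h2 : InE M.range m := fun hj t => Es_mem_of_S hj hy hβ (MonoidHom.mem_range.2 ⟨y, rfl⟩) t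
  refine LG_law hS f fun a => ?_
  obtain ⟨ha1, ha2, ha3⟩ := hf a
  refine mem_LG_of_gr hd1 (by omega : 1 ≤ k * m + k + m) ?_ ha1 ha2 ha3
  intro j hj hj'
  refine es_large hk hm hkm h1 h2 hj (le_trans ?_ hj')
  exact Nat.le_mul_of_pos_left _ hd1

end Pool.Agent.H81.NL
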