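import Pool.Agent.H81.NL.JetB

/-!
# Module Ident: trivial jets and the identity theorem

PROOF. Let `T : Subgroup (Equiv.Perm ℝ)` be the set of the `σ` with `AnalyticOnNhd ℝ σ univ`,
`AnalyticOnNhd ℝ (σ⁻¹ : Equiv.Perm ℝ) univ` and `σ 0 = 0`. For every `m`, `σ ↦ jet m σ` is a monoid homomorphism
`T →* Mt m` (`jet_comp`, `jet_id`), so `ψ m = MonoidHom.toHomUnits _ : T →* (Mt m)ˣ`. `P a ∈ T`: polynomials are
analytic; the inverse is analytic since the derivative does not vanish (`P a` is strictly increasing,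
`StrictMono.orderIsoOfSurjective` and `OrderIso.toHomeomorph`, `OpenPartialHomeomorph.hasFPowerSeriesAt_symm` or
`AnalyticAt`-inverse function theorem; search Mathlib for `analyticAt_symm`). So with `U a = ψ m (P a)`,
`(U a : Mt m) = jet m (P a) = MP m (p a)` (`jet_poly`), and `ψ m (lift P' w) = lift U w = 1` (`P' : Fin r → T`;
two homomorphisms from a free group, `FreeGroup.ext_hom`). So `jet m (lift P w) = 1` for all `m`,
`eventually_id_of_jet`, and `AnalyticOnNhd.eq_of_eventuallyEq` (identity theorem on `ℝ`).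
-/

set_option autoImplicit false

namespace Pool.Agent.H81.NL

open Polynomial Filter Topology

theorem Ident_inv_an (σ : Equiv.Perm ℝ) (h : ∀ x, AnalyticAt ℝ σ x)
    (hd : ∀ x, deriv σ x ≠ 0) : ∀ x, AnalyticAt ℝ (σ⁻¹ : Equiv.Perm ℝ) x := by
  intro y
  obtain ⟨x, rfl⟩ := σ.surjective y
  rw [← analyticAt_comp_iff_of_deriv_ne_zero (h x) (hd x)]
  have e : ((σ⁻¹ : Equiv.Perm ℝ) : ℝ → ℝ) ∘ σ = id := by
    funext z
    simp
  rw [e]
  exact analyticAt_id

/-- The group of analytic permutations of the line which fix the origin. -/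
def Ident_T : Subgroup (Equiv.Perm ℝ) where
  carrier := {σ | (∀ x, AnalyticAt ℝ σ x) ∧ (∀ x, AnalyticAt ℝ (σ⁻¹ : Equiv.Perm ℝ) x) ∧ σ 0 = 0}
  mul_mem' := by
    rintro σ τ ⟨h1, h2, h3⟩ ⟨k1, k2, k3⟩
    refine ⟨fun x => ?_, fun x => ?_, ?_⟩
    · rw [Equiv.Perm.coe_mul]
      exact (h1 (τ x)).comp (k1 x)
    · rw [mul_inv_rev, Equiv.Perm.coe_mul]
      exact (k2 _).comp (h2 x)
    · rw [Equiv.Perm.mul_apply, k3, h3]
  one_mem' := by
    refine ⟨fun x => ?_, fun x => ?_, rfl⟩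
    · rw [Equiv.Perm.coe_one]; exact analyticAt_id
    · rw [inv_one, Equiv.Perm.coe_one]; exact analyticAt_id
  inv_mem' := by
    rintro σ ⟨h1, h2, h3⟩
    refine ⟨h2, ?_, ?_⟩
    · rw [inv_inv]; exact h1
    · rw [Equiv.Perm.inv_eq_iff_eq]; exact h3.symm

/-- The jets as a monoid homomorphism. -/
noncomputable def Ident_psi (m : ℕ) : Ident_T →* Mt m where
  toFun σ := jet m ((σ : Equiv.Perm ℝ) : ℝ → ℝ)
  map_one' := by
    show jet m ((1 : Equiv.Perm ℝ) : ℝ → ℝ) = 1
    rw [Equiv.Perm.coe_one]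
    exact jet_id m
  map_mul' := by
    intro σ τ
    show jet m (((σ : Equiv.Perm ℝ) * (τ : Equiv.Perm ℝ) : Equiv.Perm ℝ) : ℝ → ℝ) = _
    rw [Equiv.Perm.coe_mul]
    exact jet_comp (σ.2.1 0) (τ.2.1 0) σ.2.2.2 τ.2.2.2

theorem lift_eq_one_of_jets {r : ℕ} {w : FreeGroup (Fin r)} {p : Fin r → ℝ[X]}
    (h0 : ∀ a, (p a).coeff 0 = 0) (hd : ∀ a, ∀ y : ℝ, 0 < (derivative (p a)).eval y)
    (P : Fin r → Equiv.Perm ℝ) (hP : ∀ a, ∀ y : ℝ, P a y = (p a).eval y)
    (hj : ∀ (m : ℕ) (U : Fin r → (Mt m)ˣ), (∀ a, (U a : Mt m) = MP m (p a)) →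
      FreeGroup.lift U w = 1) : FreeGroup.lift P w = 1 := by
  have hPf : ∀ a, (P a : ℝ → ℝ) = fun y => (p a).eval y := fun a => funext (hP a)
  have han : ∀ a x, AnalyticAt ℝ (P a) x := by
    intro a x
    rw [hPf]
    exact AnalyticAt.aeval_polynomial analyticAt_id (p a)
  have hder : ∀ a x, deriv (P a) x ≠ 0 := by
    intro a x
    rw [hPf, Polynomial.deriv]
    exact (hd a x).ne'
  let P' : Fin r → Ident_T := fun a => ⟨P a, han a, Ident_inv_an (P a) (han a) (hder a), by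
    rw [hP, ← coeff_zero_eq_eval_zero]; exact h0 a⟩
  have hsub : (FreeGroup.lift P' w : Equiv.Perm ℝ) = FreeGroup.lift P w := by
    have e : Ident_T.subtype.comp (FreeGroup.lift P') = FreeGroup.lift P := by
      ext a : 1
      simp [P']
    exact DFunLike.congr_fun e w
  have hjet : ∀ m, jet m ((FreeGroup.lift P w : Equiv.Perm ℝ) : ℝ → ℝ) = 1 := by
    intro m
    have e : ((Ident_psi m).toHomUnits).comp (FreeGroup.lift P') =
        FreeGroup.lift (fun a => (Ident_psi m).toHomUnits (P' a)) := by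
      ext a : 1
      simp
    have h1 := hj m (fun a => (Ident_psi m).toHomUnits (P' a)) (fun a => by
      rw [MonoidHom.coe_toHomUnits]
      show jet m (P a : ℝ → ℝ) = _
      rw [hPf]
      exact jet_poly m (p a))
    rw [← e] at h1
    have h2 := congrArg (fun u : (Mt m)ˣ => (u : Mt m)) h1
    simp only [MonoidHom.comp_apply, MonoidHom.coe_toHomUnits, Units.val_one] at h2
    rw [← hsub]
    exact h2
  have hmem : FreeGroup.lift P w ∈ Ident_T := by
    rw [← hsub]
    exact (FreeGroup.lift P' w).2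
  have hev := eventually_id_of_jet (hmem.1 0) hjet
  have hid := AnalyticOnNhd.eq_of_eventuallyEq (f := ((FreeGroup.lift P w : Equiv.Perm ℝ) : ℝ → ℝ))
    (g := id) (fun x _ => hmem.1 x) (fun x _ => analyticAt_id) hev
  exact Equiv.ext (fun x => congrFun hid x)

end Pool.Agent.H81.NL
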