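import Pool.Agent.H81.NL.PolyA

/-!
# Module PolyB: polynomial diffeomorphisms with prescribed inequalities

PROOFS.
* `exists_density`: by induction on `K ≥ 2`, with the additional property that `r y = 0` for `y ≥ K`. `K = 2` (and
  smaller): `r y = max 0 (min 1 (2 - |y|))`, `∫ 0..2 = 1 + 1/2 = 3/2`. Step: add
  `6 * (v (K + 1) - v K) * max 0 ((y - K) * (K + 1 - y))`, a bump supported on `[K, K + 1]` with integral
  `v (K + 1) - v K` (`∫ t in K..K+1, (t - K) * (K + 1 - t) = 1 / 6`).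
* `exists_poly_ineq`: `v i = max (3 / 2) (sup over u ∈ A, u ≤ i, of u + 5 / 4)` (e.g. as
  `(insert (3/2) ((A.filter (· ≤ i)).image fun u => (u : ℝ) + 5 / 4)).max' _` or by `Finset.sup'`, or any
  monotone `v` with `v 2 = 3 / 2`, `v u ≥ u + 5 / 4` for `u ∈ A` and `v e ≤ e - 7 / 4` for `e ∈ D`), `K` an upper
  bound of `A ∪ D`, `K ≥ 2`, `exists_density`, `exists_diffeo` with `R = K`, `δ = 1 / 4`. For `u ∈ A`:
  `p u ≥ v u - 1 / 4 ≥ u + 1`. For `e ∈ D`: all `u ∈ A` with `u ≤ e` satisfy `u ≤ e - 3`, so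
  `v e ≤ max (3 / 2) (e - 7 / 4) = e - 7 / 4` and `p e ≤ e - 7 / 4 + 1 / 4 ≤ e - 1`.
-/

set_option autoImplicit false

namespace Pool.Agent.H81.NL

open Polynomial Filter Topology

theorem PolyB_bump (K : ℕ) : (∫ t in (K : ℝ)..((K + 1 : ℕ) : ℝ),
    max 0 ((t - K) * ((K : ℝ) + 1 - t))) = 1 / 6 := by
  have h1 : (∫ t in (K : ℝ)..((K + 1 : ℕ) : ℝ), max 0 ((t - K) * ((K : ℝ) + 1 - t))) =
      ∫ t in (K : ℝ)..((K + 1 : ℕ) : ℝ), (t - K) * ((K : ℝ) + 1 - t) := by
    refine intervalIntegral.integral_congr fun t ht => ?_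
    rw [Set.uIcc_of_le (by push_cast; linarith)] at ht
    push_cast at ht
    exact max_eq_right (mul_nonneg (by linarith [ht.1]) (by linarith [ht.2]))
  rw [h1]
  have h2 : ∀ t ∈ Set.uIcc (K : ℝ) ((K + 1 : ℕ) : ℝ),
      HasDerivAt (fun t : ℝ => (t - K) ^ 2 / 2 - (t - K) ^ 3 / 3)
        ((t - K) * ((K : ℝ) + 1 - t)) t := by
    intro t _
    have h3 : HasDerivAt (fun t : ℝ => t - (K : ℝ)) 1 t := (hasDerivAt_id t).sub_const _
    have h4 : HasDerivAt (fun t : ℝ => (t - K) ^ 2 / 2 - (t - K) ^ 3 / 3)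
        (((2 : ℕ) : ℝ) * (t - K) ^ (2 - 1) * 1 / 2 - ((3 : ℕ) : ℝ) * (t - K) ^ (3 - 1) * 1 / 3) t :=
      ((h3.pow 2).div_const 2).sub ((h3.pow 3).div_const 3)
    refine h4.congr_deriv ?_
    norm_num
    ring
  rw [intervalIntegral.integral_eq_sub_of_hasDerivAt h2
    (Continuous.intervalIntegrable (by fun_prop) _ _)]
  push_cast
  ring

theorem PolyB_zero (K m : ℕ) (h : m ≤ K) : (∫ t in (0 : ℝ)..(m : ℝ),
    max 0 ((t - K) * ((K : ℝ) + 1 - t))) = 0 := by
  have h1 : (∫ t in (0 : ℝ)..(m : ℝ), max 0 ((t - K) * ((K : ℝ) + 1 - t))) =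
      ∫ t in (0 : ℝ)..(m : ℝ), (0 : ℝ) := by
    refine intervalIntegral.integral_congr fun t ht => ?_
    rw [Set.uIcc_of_le (by positivity)] at ht
    have h2 : (m : ℝ) ≤ K := by exact_mod_cast h
    exact max_eq_left (mul_nonpos_of_nonpos_of_nonneg (by linarith [ht.2]) (by linarith [ht.2]))
  rw [h1]
  simp

theorem PolyB_base : (∫ t in (0 : ℝ)..((2 : ℕ) : ℝ), max 0 (min 1 (2 - |t|))) = 3 / 2 := by
  have hc : Continuous fun t : ℝ => max 0 (min 1 (2 - |t|)) := by fun_prop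
  rw [← intervalIntegral.integral_add_adjacent_intervals (b := 1) (hc.intervalIntegrable _ _)
    (hc.intervalIntegrable _ _)]
  have h1 : (∫ t in (0 : ℝ)..1, max 0 (min 1 (2 - |t|))) = ∫ t in (0 : ℝ)..1, (1 : ℝ) := by
    refine intervalIntegral.integral_congr fun t ht => ?_
    rw [Set.uIcc_of_le (by norm_num)] at ht
    have h3 : |t| = t := abs_of_nonneg ht.1
    rw [h3, min_eq_left (by linarith [ht.2]), max_eq_right (by norm_num)]
  have h2 : (∫ t in (1 : ℝ)..((2 : ℕ) : ℝ), max 0 (min 1 (2 - |t|))) =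
      ∫ t in (1 : ℝ)..((2 : ℕ) : ℝ), (2 - t) := by
    refine intervalIntegral.integral_congr fun t ht => ?_
    rw [Set.uIcc_of_le (by norm_num)] at ht
    push_cast at ht
    have h3 : |t| = t := abs_of_nonneg (by linarith [ht.1])
    rw [h3, min_eq_right (by linarith [ht.1]), max_eq_right (by linarith [ht.2])]
  rw [h1, h2]
  have h3 : ∀ t ∈ Set.uIcc (1 : ℝ) ((2 : ℕ) : ℝ),
      HasDerivAt (fun t : ℝ => 2 * t - t ^ 2 / 2) (2 - t) t := by
    intro t _
    have h4 : HasDerivAt (fun t : ℝ => 2 * t - t ^ 2 / 2)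
        (2 * 1 - ((2 : ℕ) : ℝ) * t ^ (2 - 1) * 1 / 2) t :=
      ((hasDerivAt_id t).const_mul (2 : ℝ)).sub (((hasDerivAt_id t).pow 2).div_const 2)
    refine h4.congr_deriv ?_
    norm_num
  rw [intervalIntegral.integral_eq_sub_of_hasDerivAt h3
    (Continuous.intervalIntegrable (by fun_prop) _ _)]
  simp
  norm_num

theorem PolyB_aux {v : ℕ → ℝ} (hv : Monotone v) (h2 : v 2 = 3 / 2) (n : ℕ) :
    ∃ r : ℝ → ℝ, Continuous r ∧ (∀ y, 0 ≤ r y) ∧ (∀ y, |y| ≤ 1 → r y = 1) ∧
      (∀ y, ((n + 2 : ℕ) : ℝ) ≤ y → r y = 0) ∧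
      ∀ m : ℕ, 2 ≤ m → m ≤ n + 2 → ∫ t in (0 : ℝ)..m, r t = v m := by
  induction n with
  | zero =>
    refine ⟨fun t => max 0 (min 1 (2 - |t|)), by fun_prop, fun y => le_max_left _ _, ?_, ?_, ?_⟩
    · intro y hy
      simp only
      rw [min_eq_left (by linarith), max_eq_right (by norm_num)]
    · intro y hy
      push_cast at hy
      have h3 : |y| = y := abs_of_nonneg (by linarith)
      simp only
      rw [h3, min_eq_right (by linarith), max_eq_left (by linarith)]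
    · intro m h m2
      obtain rfl : m = 2 := by omega
      rw [PolyB_base, h2]
  | succ n ih =>
    obtain ⟨r, hr, h0, h1, hz, hi⟩ := ih
    set K : ℕ := n + 2 with hK
    have hKr : (2 : ℝ) ≤ K := by exact_mod_cast (by omega : 2 ≤ K)
    have hvK : 0 ≤ v (K + 1) - v K := sub_nonneg.2 (hv (Nat.le_succ K))
    have hcb : Continuous fun t : ℝ => max 0 ((t - K) * ((K : ℝ) + 1 - t)) := by fun_prop
    refine ⟨fun t => r t + 6 * (v (K + 1) - v K) * max 0 ((t - K) * ((K : ℝ) + 1 - t)),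
      by fun_prop, ?_, ?_, ?_, ?_⟩
    · intro y
      have := h0 y
      have h3 : 0 ≤ max 0 ((y - K) * ((K : ℝ) + 1 - y)) := le_max_left _ _
      positivity
    · intro y hy
      have h4 := abs_le.1 hy
      simp only
      rw [h1 y hy, max_eq_left (mul_nonpos_of_nonpos_of_nonneg (by linarith [h4.2])
        (by linarith [h4.2]))]
      simp
    · intro y hy
      have h5 : (K : ℝ) + 1 ≤ y := by
        have : ((n + 1 + 2 : ℕ) : ℝ) = (K : ℝ) + 1 := by rw [hK]; push_cast; ring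
        rwa [this] at hy
      simp only
      rw [hz y (by linarith), max_eq_left (mul_nonpos_of_nonneg_of_nonpos (by linarith)
        (by linarith))]
      simp
    · intro m hm1 hm2
      rw [intervalIntegral.integral_add (hr.intervalIntegrable _ _)
        ((hcb.const_mul _).intervalIntegrable _ _), intervalIntegral.integral_const_mul]
      rcases Nat.lt_or_ge K m with h | h
      · obtain rfl : m = K + 1 := by omega
        rw [← intervalIntegral.integral_add_adjacent_intervals (a := 0) (b := (K : ℝ))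
          (c := ((K + 1 : ℕ) : ℝ)) (f := r) (hr.intervalIntegrable _ _)
          (hr.intervalIntegrable _ _),
          ← intervalIntegral.integral_add_adjacent_intervals (a := 0) (b := (K : ℝ))
          (c := ((K + 1 : ℕ) : ℝ)) (f := fun t : ℝ => max 0 ((t - K) * ((K : ℝ) + 1 - t)))
          (hcb.intervalIntegrable _ _) (hcb.intervalIntegrable _ _),
          hi K (by omega) le_rfl, PolyB_bump, PolyB_zero K K le_rfl]
        have h6 : (∫ t in (K : ℝ)..((K + 1 : ℕ) : ℝ), r t) = 0 := by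
          have h7 : (∫ t in (K : ℝ)..((K + 1 : ℕ) : ℝ), r t) =
              ∫ t in (K : ℝ)..((K + 1 : ℕ) : ℝ), (0 : ℝ) := by
            refine intervalIntegral.integral_congr fun t ht => ?_
            rw [Set.uIcc_of_le (by push_cast; linarith)] at ht
            exact hz t ht.1
          rw [h7]; simp
        rw [h6]
        ring
      · rw [hi m hm1 h, PolyB_zero K m h]
        ring

theorem exists_density (K : ℕ) {v : ℕ → ℝ} (hv : Monotone v) (h2 : v 2 = 3 / 2) :
    ∃ r : ℝ → ℝ, Continuous r ∧ (∀ y, 0 ≤ r y) ∧ (∀ y, |y| ≤ 1 → r y = 1) ∧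
      ∀ m : ℕ, 2 ≤ m → m ≤ K → ∫ t in (0 : ℝ)..m, r t = v m := by
  obtain ⟨r, hr, h0, h1, -, hi⟩ := PolyB_aux hv h2 K
  exact ⟨r, hr, h0, h1, fun m hm hm' => hi m hm (by omega)⟩

theorem exists_poly_ineq {N : ℕ} (hN : 1 ≤ N) (A D : Finset ℕ) (hA : ∀ u ∈ A, 10 ≤ u)
    (hD : ∀ e ∈ D, 10 ≤ e) (hAD : ∀ u ∈ A, ∀ e ∈ D, u ≤ e → u + 3 ≤ e) :
    ∃ p : ℝ[X], X ^ (N + 1) ∣ p - X ∧ (∀ y : ℝ, 0 < (derivative p).eval y) ∧
      Function.Surjective (fun y : ℝ => p.eval y) ∧
      (∀ u ∈ A, (u : ℝ) + 1 ≤ p.eval (u : ℝ)) ∧ (∀ e ∈ D, p.eval (e : ℝ) ≤ (e : ℝ) - 1) := by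
  set B : ℕ → Finset ℝ := fun i =>
    insert (3 / 2) ((A.filter (· ≤ i)).image fun u : ℕ => (u : ℝ) + 5 / 4) with hB
  have hne : ∀ i, (B i).Nonempty := fun i => Finset.insert_nonempty _ _
  set v : ℕ → ℝ := fun i => (B i).max' (hne i) with hvdef
  have hv : Monotone v := by
    intro i j hij
    refine Finset.max'_subset (hne i) ?_
    refine Finset.insert_subset_insert _ (Finset.image_subset_image ?_)
    intro u hu
    rw [Finset.mem_filter] at hu ⊢
    exact ⟨hu.1, hu.2.trans hij⟩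
  have h32 : ∀ i, 3 / 2 ≤ v i := fun i => Finset.le_max' _ _ (Finset.mem_insert_self _ _)
  have h2 : v 2 = 3 / 2 := by
    refine le_antisymm (Finset.max'_le _ _ _ fun x hx => ?_) (h32 2)
    rcases Finset.mem_insert.1 hx with h | h
    · exact h.le
    · obtain ⟨u, hu, rfl⟩ := Finset.mem_image.1 h
      rw [Finset.mem_filter] at hu
      have := hA u hu.1
      omega
  have hvA : ∀ u ∈ A, (u : ℝ) + 5 / 4 ≤ v u := by
    intro u hu
    refine Finset.le_max' (B u) _ (Finset.mem_insert_of_mem (Finset.mem_image.2 ⟨u, ?_, rfl⟩))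
    exact Finset.mem_filter.2 ⟨hu, le_rfl⟩
  have hvD : ∀ e ∈ D, v e ≤ (e : ℝ) - 7 / 4 := by
    intro e he
    refine Finset.max'_le _ _ _ fun x hx => ?_
    rcases Finset.mem_insert.1 hx with h | h
    · have h10 : (10 : ℝ) ≤ e := by exact_mod_cast hD e he
      rw [h]; linarith
    · obtain ⟨u, hu, rfl⟩ := Finset.mem_image.1 h
      rw [Finset.mem_filter] at hu
      have h3 := hAD u hu.1 e he hu.2
      have h4 : (u : ℝ) + 3 ≤ e := by exact_mod_cast h3
      linarith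
  set K : ℕ := (A ∪ D).sup id + 2 with hK
  have hKm : ∀ m ∈ A ∪ D, m ≤ K := by
    intro m hm
    have : id m ≤ (A ∪ D).sup id := Finset.le_sup hm
    simp only [id] at this
    omega
  obtain ⟨r, hr, h0, h1, hi⟩ := exists_density K hv h2
  have hKpos : (0 : ℝ) < K := by exact_mod_cast (by omega : 0 < K)
  obtain ⟨p, hp1, hp2, hp3, hp4⟩ := exists_diffeo hN hr h0 h1 hKpos
    (show (0 : ℝ) < 1 / 4 by norm_num)
  refine ⟨p, hp1, hp2, hp3, ?_, ?_⟩
  · intro u hu
    have hk : u ≤ K := hKm u (Finset.mem_union_left _ hu)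
    have h3 := hp4 u (by positivity) (by exact_mod_cast hk)
    rw [hi u (by have := hA u hu; omega) hk] at h3
    have h4 := (abs_le.1 h3).1
    have h5 := hvA u hu
    linarith
  · intro e he
    have hk : e ≤ K := hKm e (Finset.mem_union_right _ he)
    have h3 := hp4 e (by positivity) (by exact_mod_cast hk)
    rw [hi e (by have := hD e he; omega) hk] at h3
    have h4 := (abs_le.1 h3).2
    have h5 := hvD e he
    linarith

end Pool.Agent.H81.NL
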