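import Mathlib

/-!
# Module Word: a nontrivial word moves a point of the line

PROOF. `L = w.toWord`, reduced (`FreeGroup.isReduced_toWord` / `FreeGroup.IsReduced`: neighbouring letters
`(a, b)`, `(a, b')` have `b = b'`), not empty (`FreeGroup.toWord_eq_nil_iff`);
`FreeGroup.lift P w = (L.map fun x => cond x.2 (P x.1) (P x.1)⁻¹).prod` (`FreeGroup.lift_mk`, `FreeGroup.mk_toWord`).
Define by recursion on the list: `A (x :: t) a = if x = (a, true) then insert (10 + t.length) (A t a) else A t a`,
`D (x :: t) a = if x = (a, false) then insert (11 + t.length) (D t a) else D t a`.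
* bounds: elements of `A L a` are in `[10, 9 + L.length]`, of `D L a` in `[11, 10 + L.length]`.
* `u ∈ A L a`, `e ∈ D L a`, `u ≤ e → u + 3 ≤ e` for reduced `L`, by induction. In `x :: t`: `t` is reduced. If
  `x = (a, true)`: the new `u = 10 + t.length`, all `e ∈ D t a` are `≤ 10 + t.length`, and `e = 10 + t.length` would mean
  that the head of `t` is `(a, false)` (elements of `D t a` other than the one of the head are `≤ 9 + t.length`),
  excluded by reducedness; so `u > e`. If `x = (a, false)`: new `e = 11 + t.length`; `u ∈ A t a` is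
  `≤ 9 + t.length`, with equality only if the head of `t` is `(a, true)`, excluded; so `u ≤ 8 + t.length`.
* dynamics, by induction on the list: `10 + L.length ≤ (prod L) 10`: for `x :: t`, `y = (prod t) 10 ≥ 10 + t.length`;
  if `x = (a, true)`, `P a y ≥ P a (10 + t.length) ≥ 11 + t.length`; if `x = (a, false)`:
  `P a (11 + t.length) ≤ 10 + t.length ≤ y`, so `(P a)⁻¹ y ≥ 11 + t.length`.
-/

set_option autoImplicit false

namespace Pool.Agent.H81.NL

theorem Word_reduced_head {α : Type} (x y : α × Bool) (t : List (α × Bool))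
    (h : FreeGroup.IsReduced (x :: t)) (hy : t.head? = some y) : x.1 = y.1 → x.2 = y.2 := by
  cases t with
  | nil => simp at hy
  | cons z s =>
    simp only [List.head?_cons, Option.some.injEq] at hy
    subst hy
    exact (FreeGroup.isReduced_cons_cons.1 h).1

theorem Word_reduced_tail {α : Type} (x : α × Bool) (t : List (α × Bool))
    (h : FreeGroup.IsReduced (x :: t)) : FreeGroup.IsReduced t := by
  cases t with
  | nil => exact FreeGroup.IsReduced.nil
  | cons z s => exact (FreeGroup.isReduced_cons_cons.1 h).2

open Classical in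
/-- positions where the letter `(a, true)` is used -/
noncomputable def Word_A {α : Type} : List (α × Bool) → α → Finset ℕ
  | [], _ => ∅
  | x :: t, a => if x = (a, true) then insert (10 + t.length) (Word_A t a) else Word_A t a

open Classical in
/-- positions where the letter `(a, false)` is used -/
noncomputable def Word_D {α : Type} : List (α × Bool) → α → Finset ℕ
  | [], _ => ∅
  | x :: t, a => if x = (a, false) then insert (11 + t.length) (Word_D t a) else Word_D t a

theorem Word_mem_A {α : Type} (x : α × Bool) (t : List (α × Bool)) (a : α) (u : ℕ) :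
    u ∈ Word_A (x :: t) a ↔ (x = (a, true) ∧ u = 10 + t.length) ∨ u ∈ Word_A t a := by
  unfold Word_A
  split_ifs with h
  · rw [Finset.mem_insert]
    simp [h]
    cases t <;> simp [Word_A]
  · simp [h]
    cases t <;> simp [Word_A]

theorem Word_mem_D {α : Type} (x : α × Bool) (t : List (α × Bool)) (a : α) (u : ℕ) :
    u ∈ Word_D (x :: t) a ↔ (x = (a, false) ∧ u = 11 + t.length) ∨ u ∈ Word_D t a := by
  unfold Word_D
  split_ifs with h
  · rw [Finset.mem_insert]
    simp [h]
    cases t <;> simp [Word_D]
  · simp [h]
    cases t <;> simp [Word_D]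

theorem Word_A_bound {α : Type} (t : List (α × Bool)) (a : α) (u : ℕ) (hu : u ∈ Word_A t a) :
    10 ≤ u ∧ u + 1 ≤ 10 + t.length := by
  induction t with
  | nil => simp [Word_A] at hu
  | cons x s ih =>
    rw [Word_mem_A] at hu
    simp only [List.length_cons]
    rcases hu with ⟨_, rfl⟩ | hu
    · omega
    · have := ih hu
      omega

theorem Word_D_bound {α : Type} (t : List (α × Bool)) (a : α) (e : ℕ) (he : e ∈ Word_D t a) :
    11 ≤ e ∧ e ≤ 10 + t.length := by
  induction t with
  | nil => simp [Word_D] at he
  | cons x s ih =>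
    rw [Word_mem_D] at he
    simp only [List.length_cons]
    rcases he with ⟨_, rfl⟩ | he
    · omega
    · have := ih he
      omega

theorem Word_A_head {α : Type} (t : List (α × Bool)) (a : α) (u : ℕ) (hu : u ∈ Word_A t a) :
    u + 2 ≤ 10 + t.length ∨ t.head? = some (a, true) := by
  cases t with
  | nil => simp [Word_A] at hu
  | cons x s =>
    rw [Word_mem_A] at hu
    rcases hu with ⟨h, _⟩ | hu
    · right
      simp [h]
    · left
      have := Word_A_bound s a u hu
      simp only [List.length_cons]
      omega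

theorem Word_D_head {α : Type} (t : List (α × Bool)) (a : α) (e : ℕ) (he : e ∈ Word_D t a) :
    e ≤ 9 + t.length ∨ t.head? = some (a, false) := by
  cases t with
  | nil => simp [Word_D] at he
  | cons x s =>
    rw [Word_mem_D] at he
    rcases he with ⟨h, _⟩ | he
    · right
      simp [h]
    · left
      have := Word_D_bound s a e he
      simp only [List.length_cons]
      omega

theorem Word_gap {α : Type} (t : List (α × Bool)) (ht : FreeGroup.IsReduced t) (a : α) (u e : ℕ)
    (hu : u ∈ Word_A t a) (he : e ∈ Word_D t a) (hue : u ≤ e) : u + 3 ≤ e := by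
  induction t with
  | nil => simp [Word_A] at hu
  | cons x s ih =>
    rw [Word_mem_A] at hu
    rw [Word_mem_D] at he
    rcases hu with ⟨hx, rfl⟩ | hu
    · rcases he with ⟨hx', _⟩ | he
      · rw [hx] at hx'
        simp at hx'
      · exfalso
        have h1 := Word_D_bound s a e he
        rcases Word_D_head s a e he with h2 | h2
        · omega
        · have h3 := Word_reduced_head x (a, false) s ht h2
          rw [hx] at h3
          simp at h3
    · rcases he with ⟨hx, rfl⟩ | he
      · have h1 := Word_A_bound s a u hu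
        rcases Word_A_head s a u hu with h2 | h2
        · omega
        · exfalso
          have h3 := Word_reduced_head x (a, true) s ht h2
          rw [hx] at h3
          simp at h3
      · exact ih (Word_reduced_tail x s ht) hu he

theorem Word_dyn {α : Type} (P : α → Equiv.Perm ℝ) (hP : ∀ a, StrictMono (P a))
    (t : List (α × Bool)) (hA : ∀ a, ∀ u ∈ Word_A t a, (u : ℝ) + 1 ≤ P a u)
    (hD : ∀ a, ∀ e ∈ Word_D t a, P a e ≤ (e : ℝ) - 1) :
    (10 : ℝ) + (t.length : ℝ) ≤
      (t.map fun x => cond x.2 (P x.1) (P x.1)⁻¹).prod (10 : ℝ) := by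
  induction t with
  | nil => simp
  | cons x s ih =>
    have ih' := ih (fun a u hu => hA a u ((Word_mem_A x s a u).2 (Or.inr hu)))
      (fun a e he => hD a e ((Word_mem_D x s a e).2 (Or.inr he)))
    rw [List.map_cons, List.prod_cons, Equiv.Perm.mul_apply]
    set y : ℝ := (s.map fun x => cond x.2 (P x.1) (P x.1)⁻¹).prod (10 : ℝ) with hy
    obtain ⟨a, b⟩ := x
    cases b with
    | true =>
      have h1 := hA a (10 + s.length) ((Word_mem_A _ s a _).2 (Or.inl ⟨rfl, rfl⟩))
      have h2 : P a ((10 + s.length : ℕ) : ℝ) ≤ P a y := by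
        apply (hP a).monotone
        push_cast
        exact ih'
      simp only [cond_true, List.length_cons]
      push_cast at h1 h2 ⊢
      linarith
    | false =>
      have h1 := hD a (11 + s.length) ((Word_mem_D _ s a _).2 (Or.inl ⟨rfl, rfl⟩))
      simp only [cond_false, List.length_cons]
      have h2 : ((11 + s.length : ℕ) : ℝ) ≤ (P a)⁻¹ y := by
        rw [← (hP a).le_iff_le]
        rw [Equiv.Perm.inv_def, Equiv.apply_symm_apply]
        push_cast at h1 ⊢
        linarith
      push_cast at h2 ⊢
      linarith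

theorem word_ineq {α : Type} (w : FreeGroup α) (hw : w ≠ 1) :
    ∃ A D : α → Finset ℕ, (∀ a, ∀ u ∈ A a, 10 ≤ u) ∧ (∀ a, ∀ e ∈ D a, 10 ≤ e) ∧
      (∀ a, ∀ u ∈ A a, ∀ e ∈ D a, u ≤ e → u + 3 ≤ e) ∧
      ∀ P : α → Equiv.Perm ℝ, (∀ a, StrictMono (P a)) →
        (∀ a, ∀ u ∈ A a, (u : ℝ) + 1 ≤ P a u) → (∀ a, ∀ e ∈ D a, P a e ≤ (e : ℝ) - 1) →
          FreeGroup.lift P w 10 ≠ 10 := by
  classical
  refine ⟨Word_A w.toWord, Word_D w.toWord, ?_, ?_, ?_, ?_⟩
  · intro a u hu
    exact (Word_A_bound _ a u hu).1
  · intro a e he
    have := (Word_D_bound _ a e he).1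
    omega
  · intro a u hu e he hue
    exact Word_gap _ FreeGroup.isReduced_toWord a u e hu he hue
  · intro P hP hA hD heq
    have h1 := Word_dyn P hP w.toWord hA hD
    have h2 : FreeGroup.lift P w
        = (w.toWord.map fun x => cond x.2 (P x.1) (P x.1)⁻¹).prod := by
      rw [← FreeGroup.lift_mk, FreeGroup.mk_toWord]
    rw [← h2, heq] at h1
    have h3 : w.toWord.length = 0 := by
      have : (w.toWord.length : ℝ) ≤ 0 := by linarith
      exact_mod_cast le_antisymm this (Nat.cast_nonneg _)
    exact hw (FreeGroup.toWord_eq_nil_iff.1 (List.length_eq_zero_iff.1 h3))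

end Pool.Agent.H81.NL
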