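import Pool.Agent.H81.NL.Sub
import Pool.Agent.H81.NL.Germ
import Pool.Agent.H81.NL.PolyB
import Pool.Agent.H81.NL.Word
import Pool.Agent.H81.NL.Ident
import Pool.Agent.H81.NL.Circle

/-!
# Assembly
-/

set_option autoImplicit false

namespace Pool.Agent.H81.NL

open Polynomial Filter Topology

/-- A group of germs of real-analytic diffeomorphisms which is not metabelian satisfies no law. -/
theorem germ_noLaw {Γ : Type} [Group Γ] {h : Γ → ℝ → ℝ} (H : GermAct Γ h)
    (hd : derivedSeries Γ 2 ≠ ⊥) {r : ℕ} {w : FreeGroup (Fin r)} (hw : w ≠ 1) :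
    ∃ f : Fin r → Γ, FreeGroup.lift f w ≠ 1 := by
  by_contra hno
  push Not at hno
  obtain ⟨d, N, hd1, hN, hlaw⟩ := H.law hd hno
  obtain ⟨A, D, hA, hD, hAD, hP⟩ := word_ineq w hw
  choose p hp1 hp2 hp3 hp4 hp5 using fun a =>
    exists_poly_ineq hN (A a) (D a) (hA a) (hD a) (hAD a)
  have hmono : ∀ a, StrictMono (fun y : ℝ => (p a).eval y) := fun a => by
    refine strictMono_of_deriv_pos fun y => ?_
    rw [Polynomial.deriv]
    exact hp2 a y
  let P : Fin r → Equiv.Perm ℝ := fun a =>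
    Equiv.ofBijective (fun y : ℝ => (p a).eval y) ⟨(hmono a).injective, hp3 a⟩
  have h0 : ∀ a, (p a).coeff 0 = 0 := by
    intro a
    have h1 := coeff_eq_of_dvd (hp1 a) (j := 0) (by omega)
    rw [h1, coeff_X_zero]
  have h1 : FreeGroup.lift P w = 1 :=
    lift_eq_one_of_jets h0 hp2 P (fun a y => rfl) fun m U hU =>
      law_poly hd1 hN hlaw hp1 m U hU
  refine hP P (fun a => hmono a) (fun a u hu => hp4 a u hu) (fun a e he => hp5 a e he) ?_
  rw [h1]
  rfl

end Pool.Agent.H81.NL
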