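import Pool.Agent.H81.NL.Lim4

/-!
# Module Aut: matrices of substitutions

PROOFS.
* `mul`: `MP_comp`; `one`: `MP_X`; `pow`: induction; `sc`: `scm lam A = MP (C lam⁻¹ * X) * A * MP (C lam * X)`
  by definition, `MP_comp` twice (the middle factor is `MP n P`).
* Closedness.  `rowp g = ∑ b, C (mt g 1 b) * X ^ b` (row number `1`, the coefficients of `P` if
  `mt g = MP n P`; so then `X ^ (n + 2) ∣ rowp g - P`, `MP_congr`, `mt g = MP n (rowp g)`).
  The set `{g | mt g = MP n (rowp g) ∧ mt g 1 0 = 0}` is closed: the maps `g ↦ mt g a b` and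
  `g ↦ ((rowp g) ^ a).coeff b` are continuous (induction on `a`, `coeff_mul`, finite sums).
* `isAut_Es`: let `g0` be the element of `SL` with matrix `MP n (X + X ^ (j + 1))` (`det_of_Fl`,
  `Lead_MP`, `Lead.fl`, `Fl.mono`), `Lead j 1 (mt g0)`.  If `0 ≤ t` use `tendsto_sc_pow` with `α = 1`: every
  neighbourhood of `Es n j hj t` contains some `sc lam hl (g0 ^ m)`, which is a substitution; closedness.
  If `t ≤ 0` use `g0` with matrix `MP n (X - X ^ (j + 1))`, `α = -1`.
* `IsAut.lead`: `mt g = MP n P`. If `j + 2 ≤ n + 2`: `α = P.coeff (j + 1)`; `h` in row `1` gives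
  `P.coeff b = if b = 1 then 1 else 0` for `b < 1 + j`, so `X ^ (j + 2) ∣ P - X - C α * X ^ (j + 1)`
  (`X_pow_dvd_iff`), `Lead_MP`. Otherwise `j ≥ n + 1`: then `mt g = 1` (`Fl j`; the only possibly
  nonzero entry of `mt g - 1` is `(0, n + 1)`, and row `0` of `MP n P` is the row of `P ^ 0 = 1`), `α = 0`.
-/

set_option autoImplicit false

namespace Pool.Agent.H81.NL

open Polynomial Filter Topology

variable {n : ℕ}

/-- The matrix of `g` is the matrix of a substitution. -/
def IsAut (g : SLn n) : Prop := ∃ P : ℝ[X], P.coeff 0 = 0 ∧ mt g = MP n P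

theorem IsAut.one : IsAut (1 : SLn n) :=
  ⟨X, coeff_X_zero, by rw [mt_one, MP_X]⟩

theorem Aut_comp_coeff_zero {P Q : ℝ[X]} (hP : P.coeff 0 = 0) (hQ : Q.coeff 0 = 0) :
    (P.comp Q).coeff 0 = 0 := by
  rw [coeff_zero_eq_eval_zero] at *
  rw [eval_comp, hQ, hP]

theorem IsAut.mul {g h : SLn n} (hg : IsAut g) (hh : IsAut h) : IsAut (g * h) := by
  obtain ⟨P, hP, hgP⟩ := hg
  obtain ⟨Q, hQ, hhQ⟩ := hh
  exact ⟨P.comp Q, Aut_comp_coeff_zero hP hQ, by rw [mt_mul, hgP, hhQ, MP_comp n P Q hQ]⟩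

theorem IsAut.pow {g : SLn n} (hg : IsAut g) (m : ℕ) : IsAut (g ^ m) := by
  induction m with
  | zero => rw [pow_zero]; exact IsAut.one
  | succ m ih => rw [pow_succ]; exact ih.mul hg

theorem IsAut.sc {g : SLn n} (hg : IsAut g) {lam : ℝ} (hl : lam ≠ 0) : IsAut (NL.sc lam hl g) := by
  obtain ⟨P, hP, hgP⟩ := hg
  have h1 : (C lam * X : ℝ[X]).coeff 0 = 0 := by simp
  have h2 : (C lam⁻¹ * X : ℝ[X]).coeff 0 = 0 := by simp
  refine ⟨((C lam⁻¹ * X).comp P).comp (C lam * X),
    Aut_comp_coeff_zero (Aut_comp_coeff_zero h2 hP) h1, ?_⟩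
  rw [mt_sc, MP_comp _ _ _ h1, MP_comp _ _ _ hP]
  unfold scm
  rw [hgP]

/-- The polynomial with the coefficients of row number `1`. -/
noncomputable def Aut_rowp (g : SLn n) : ℝ[X] := ∑ b : Fin (n + 2), C (mt g 1 b) * X ^ (b : ℕ)

theorem Aut_rowp_coeff (g : SLn n) (b : Fin (n + 2)) : (Aut_rowp g).coeff b = mt g 1 b := by
  unfold Aut_rowp
  rw [finsetSum_coeff, Finset.sum_eq_single b]
  · rw [coeff_C_mul, coeff_X_pow, if_pos rfl, mul_one]
  · intro c _ hc
    rw [coeff_C_mul, coeff_X_pow, if_neg (fun h => hc (Fin.ext h.symm)), mul_zero]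
  · intro h
    exact absurd (Finset.mem_univ _) h

theorem Aut_cont_entry (a b : Fin (n + 2)) : Continuous fun g : SLn n => mt g a b :=
  (continuous_apply b).comp ((continuous_apply a).comp continuous_subtype_val)

theorem Aut_cont_rowp (k : ℕ) : Continuous fun g : SLn n => (Aut_rowp g).coeff k := by
  unfold Aut_rowp
  simp only [finsetSum_coeff, coeff_C_mul]
  exact continuous_finsetSum _ fun b _ => (Aut_cont_entry 1 b).mul continuous_const

theorem Aut_cont_pow (a k : ℕ) : Continuous fun g : SLn n => ((Aut_rowp g) ^ a).coeff k := by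
  induction a generalizing k with
  | zero =>
    simp only [pow_zero]
    exact continuous_const
  | succ a ih =>
    simp only [pow_succ, coeff_mul]
    exact continuous_finsetSum _ fun p _ => (ih p.1).mul (Aut_cont_rowp p.2)

/-- The closed condition. -/
def Aut_set (n : ℕ) : Set (SLn n) :=
  {g | (∀ a b, mt g a b = ((Aut_rowp g) ^ (a : ℕ)).coeff b) ∧ mt g 1 0 = 0}

theorem Aut_set_closed : IsClosed (Aut_set n) := by
  have h1 : IsClosed {g : SLn n | ∀ a b, mt g a b = ((Aut_rowp g) ^ (a : ℕ)).coeff b} := by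
    simp only [Set.ofPred_forall]
    exact isClosed_iInter fun a => isClosed_iInter fun b =>
      isClosed_eq (Aut_cont_entry a b) (Aut_cont_pow a b)
  have h2 : IsClosed {g : SLn n | mt g 1 0 = 0} :=
    isClosed_eq (Aut_cont_entry 1 0) continuous_const
  exact h1.inter h2

theorem Aut_mem_set {g : SLn n} (hg : IsAut g) : g ∈ Aut_set n := by
  obtain ⟨P, hP, hgP⟩ := hg
  have h1 : ∀ b : Fin (n + 2), mt g 1 b = P.coeff b := by
    intro b
    rw [hgP, MP_apply]
    simp
  have h2 : X ^ (n + 2) ∣ P - Aut_rowp g := by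
    refine dvd_of_coeff_eq fun j hj => ?_
    have := Aut_rowp_coeff g ⟨j, hj⟩
    rw [h1] at this
    exact this.symm
  refine ⟨fun a b => ?_, ?_⟩
  · have h3 : mt g = MP n (Aut_rowp g) := by rw [hgP, MP_congr h2]
    have h4 : mt g a b = MP n (Aut_rowp g) a b := by rw [← h3]
    rw [h4, MP_apply]
  · rw [h1]
    exact hP

theorem Aut_of_mem_set {g : SLn n} (hg : g ∈ Aut_set n) : IsAut g := by
  obtain ⟨h1, h2⟩ := hg
  refine ⟨Aut_rowp g, ?_, ?_⟩
  · have := Aut_rowp_coeff g 0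
    rw [h2] at this
    exact this
  · ext a b
    rw [h1 a b, MP_apply]

theorem isAut_closed {g : SLn n} (h : ∀ U ∈ 𝓝 g, ∃ s ∈ U, IsAut s) : IsAut g := by
  apply Aut_of_mem_set
  rw [← Aut_set_closed.closure_eq]
  rw [mem_closure_iff_nhds]
  intro U hU
  obtain ⟨s, hs, hs'⟩ := h U hU
  exact ⟨s, hs, Aut_mem_set hs'⟩

theorem Aut_Es_aux {j : ℕ} (hj : 1 ≤ j) (t α : ℝ) (hα : α ≠ 0) (ht : 0 ≤ t / α) :
    IsAut (Es n j hj t) := by
  set P : ℝ[X] := X + C α * X ^ (j + 1) with hP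
  have hL : Lead j α (MP n P) := by
    refine Lead_MP hj ?_
    have : P - X - C α * X ^ (j + 1) = 0 := by rw [hP]; ring
    rw [this]
    exact dvd_zero _
  set g0 : SLn n := ⟨MP n P, det_of_Fl (hL.fl.mono hj)⟩ with hg0
  have hg0P : mt g0 = MP n P := rfl
  have hg0A : IsAut g0 := by
    refine ⟨P, ?_, hg0P⟩
    rw [hP]
    simp
  refine isAut_closed fun U hU => ?_
  obtain ⟨lam, hlam, hpos⟩ :=
    ((tendsto_sc_pow hj (g := g0) (by rw [hg0P]; exact hL) hα ht hU).and
      self_mem_nhdsWithin).exists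
  have hl : lam ≠ 0 := ne_of_gt hpos
  obtain ⟨m, hm⟩ := hlam hl
  exact ⟨_, hm, (hg0A.pow m).sc hl⟩

theorem isAut_Es {j : ℕ} (hj : 1 ≤ j) (t : ℝ) : IsAut (Es n j hj t) := by
  rcases le_total 0 t with h | h
  · exact Aut_Es_aux hj t 1 one_ne_zero (by rwa [div_one])
  · refine Aut_Es_aux hj t (-1) (neg_ne_zero.2 one_ne_zero) ?_
    rw [div_neg, div_one]
    linarith

theorem IsAut.lead {g : SLn n} (hg : IsAut g) {j : ℕ} (hj : 1 ≤ j) (h : Fl j (mt g - 1)) :
    ∃ α : ℝ, Lead j α (mt g) := by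
  obtain ⟨P, hP, hgP⟩ := hg
  by_cases hjn : j ≤ n
  · refine ⟨P.coeff (j + 1), ?_⟩
    rw [hgP]
    refine Lead_MP hj (X_pow_dvd_iff.2 fun d hd => ?_)
    rw [coeff_sub, coeff_sub, coeff_C_mul, coeff_X_pow]
    rcases Nat.lt_or_ge d (j + 1) with hd1 | hd1
    · rw [if_neg (by omega), mul_zero, sub_zero]
      have h1 := h 1 ⟨d, by omega⟩ (by
        show d < ((1 : Fin (n + 2)) : ℕ) + j
        rw [Fin.val_one]
        omega)
      rw [hgP, Matrix.sub_apply, MP_apply, Matrix.one_apply, Fin.val_one, pow_one] at h1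
      rw [coeff_X]
      by_cases hd2 : 1 = d
      · rw [if_pos hd2]
        rw [if_pos (Fin.ext (by rw [Fin.val_one]; exact hd2))] at h1
        exact h1
      · rw [if_neg hd2]
        rw [if_neg (fun he => hd2 (by
          have := congrArg Fin.val he
          rwa [Fin.val_one] at this))] at h1
        exact h1
    · have hd2 : d = j + 1 := by omega
      rw [if_pos hd2, mul_one, hd2, coeff_X, if_neg (by omega)]
      ring
  · refine ⟨0, Lead_zero_iff.2 ?_⟩
    have h1 : mt g - 1 = 0 := by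
      ext a b
      rw [Matrix.zero_apply]
      by_cases hab : (b : ℕ) < a + j
      · exact h a b hab
      · have ha : (a : ℕ) = 0 := by have := b.2; omega
        rw [hgP, Matrix.sub_apply, MP_apply, ha, pow_zero, coeff_one, Matrix.one_apply]
        by_cases hb : (b : ℕ) = 0
        · rw [if_pos hb, if_pos (Fin.ext (by rw [ha, hb])), sub_self]
        · rw [if_neg hb, if_neg (fun he => hb (by rw [← he, ha])), sub_self]
    rw [h1]
    exact Fl.zero _

end Pool.Agent.H81.NL
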