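import Pool.Agent.H81.NL.Lim4

/-!
# Module Gr: graded matrices

PROOFS.
* `mul`: `(A * B) a b = ∑ c, A a c * B c b`; a nonzero term has `a ≡ c`, `c ≡ b`.
* `Gr_Em`: sum of multiples of powers of `Dm n j`, `d ∣ j`.
* `inv`: `exists_inv_Fl` gives an inverse matrix; better: with `N = mt g - 1` the inverse is
  `∑ r ∈ range (n + 2), (-N) ^ r` (see the proof of `exists_inv_Fl` in Sl.lean: `mul_neg_geom_sum`, `Fl.pow`,
  `Fl.eq_zero`), a sum of powers of a graded matrix.
* `fl_next`: an entry `(a, b)` of `mt g - 1` with `b < a + d * (j + 1)`: zero if `b < a + d * j + 1`; otherwise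
  `d * j < b - a < d * (j + 1)`, so `a ≢ b` modulo `d`, and the matrix `mt g - 1` is graded.
-/

set_option autoImplicit false

namespace Pool.Agent.H81.NL

variable {n : ℕ} {d : ℕ}

/-- Only entries at distances from the diagonal divisible by `d`. -/
def Gr (d : ℕ) (A : Mt n) : Prop := ∀ a b : Fin (n + 2), ¬ ((a : ℕ) ≡ b [MOD d]) → A a b = 0

theorem Gr.one : Gr d (1 : Mt n) := by
  intro a b h
  rw [Matrix.one_apply, if_neg]
  rintro rfl
  exact h rfl

theorem Gr.mul {A B : Mt n} (hA : Gr d A) (hB : Gr d B) : Gr d (A * B) := by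
  intro a b h
  rw [Matrix.mul_apply]
  refine Finset.sum_eq_zero fun c _ => ?_
  by_cases hc : (a : ℕ) ≡ c [MOD d]
  · rw [hB c b (fun h' => h (hc.trans h')), mul_zero]
  · rw [hA a c hc, zero_mul]

theorem Gr.add {A B : Mt n} (hA : Gr d A) (hB : Gr d B) : Gr d (A + B) := by
  intro a b h
  rw [Matrix.add_apply, hA a b h, hB a b h, add_zero]

theorem Gr.sub {A B : Mt n} (hA : Gr d A) (hB : Gr d B) : Gr d (A - B) := by
  intro a b h
  rw [Matrix.sub_apply, hA a b h, hB a b h, sub_zero]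

theorem Gr.smul {A : Mt n} (hA : Gr d A) (c : ℝ) : Gr d (c • A) := by
  intro a b h
  rw [Matrix.smul_apply, hA a b h, smul_zero]

theorem Gr.pow {A : Mt n} (hA : Gr d A) (m : ℕ) : Gr d (A ^ m) := by
  induction m with
  | zero =>
    rw [pow_zero]
    exact Gr.one
  | succ m ih =>
    rw [pow_succ]
    exact ih.mul hA

theorem Gr.sum {ι : Type*} {s : Finset ι} {f : ι → Mt n} (h : ∀ i ∈ s, Gr d (f i)) :
    Gr d (∑ i ∈ s, f i) := by
  classical
  induction s using Finset.induction_on with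
  | empty => exact fun _ _ _ => rfl
  | insert i s hi ih =>
    rw [Finset.sum_insert hi]
    exact (h i (Finset.mem_insert_self _ _)).add
      (ih fun j hj => h j (Finset.mem_insert_of_mem hj))

theorem Gr_Dm {j : ℕ} (h : d ∣ j) : Gr d (Dm n j) := by
  intro a b hab
  rw [Dm_apply, if_neg]
  intro hb
  apply hab
  rw [hb]
  have : (a : ℕ) + 0 ≡ a + j [MOD d] :=
    Nat.ModEq.add_left _ ((Nat.modEq_zero_iff_dvd.2 h).symm)
  simpa using this

theorem Gr_Em {j : ℕ} (h : d ∣ j) (t : ℝ) : Gr d (Em n j t) := by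
  unfold Em
  exact Gr.sum fun r _ => ((Gr_Dm h).pow r).smul _

theorem Gr.inv {g : SLn n} (h : Gr d (mt g)) (h1 : Fl 1 (mt g - 1)) : Gr d (mt g⁻¹) := by
  set N := mt g - 1 with hN
  have hG : Gr d N := h.sub Gr.one
  have e1 : mt g * ∑ r ∈ Finset.range (n + 2), (-N) ^ r = 1 := by
    have h1' : (1 - (-N)) * ∑ r ∈ Finset.range (n + 2), (-N) ^ r = 1 - (-N) ^ (n + 2) :=
      mul_neg_geom_sum _ _
    have h2 : (-N) ^ (n + 2) = 0 :=
      (h1.neg.pow (n + 2)).eq_zero (Nat.le_mul_of_pos_right _ Nat.one_pos)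
    rw [h2, sub_zero, sub_neg_eq_add, hN, add_sub_cancel] at h1'
    exact h1'
  have e : mt g⁻¹ = ∑ r ∈ Finset.range (n + 2), (-N) ^ r := by
    have h1' : mt g⁻¹ * mt g = 1 := by rw [← mt_mul, inv_mul_cancel, mt_one]
    calc mt g⁻¹ = mt g⁻¹ * (mt g * ∑ r ∈ Finset.range (n + 2), (-N) ^ r) := by
          rw [e1, mul_one]
      _ = _ := by rw [← mul_assoc, h1', one_mul]
  rw [e]
  refine Gr.sum fun r _ => Gr.pow ?_ r
  have := hG.smul (-1)
  rwa [neg_one_smul] at this

theorem fl_next {g : SLn n} {j : ℕ} (h : Gr d (mt g)) (h1 : Fl (d * j + 1) (mt g - 1)) :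
    Fl (d * (j + 1)) (mt g - 1) := by
  intro a b hab
  by_cases hc : (b : ℕ) < a + (d * j + 1)
  · exact h1 a b hc
  · have hab' : (b : ℕ) < a + (d * j + d) := by rwa [Nat.mul_succ] at hab
    refine (h.sub Gr.one) a b fun hm => ?_
    have hd := (Nat.modEq_iff_dvd' (by omega)).1 hm
    obtain ⟨k, hk⟩ := hd
    have hk1 : d * j < d * k := by omega
    have hk2 : d * k < d * (j + 1) := by rw [Nat.mul_succ]; omega
    have := Nat.lt_of_mul_lt_mul_left hk1
    have := Nat.lt_of_mul_lt_mul_left hk2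
    omega

end Pool.Agent.H81.NL
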