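import Pool.Agent.H81.NL.Aut
import Pool.Agent.H81.NL.Gr

/-!
# Module Gen: the limit group contains all graded substitutions of high order

PROOFS.
* `es_comm`: `Lead_comm` for `Es n i hi s`, `Es n j hj u` (`Lead_Em`, `mt_Es`) with `s = u = 1`: coefficient
  `i - j ≠ 0`; the commutator is in the subgroup `LG S`; `Es_mem_of_LG`.
* `es_combo`: `Es_mem_of_S` gives `k` and `m`; by symmetry of the statement assume `k < m` if convenient;
  first `a * k + m` for `a ≥ 1` by induction on `a` (`es_comm` with `i = k`, `j = (a - 1) * k + m > k`), then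
  `a * k + b * m` by induction on `b` (`es_comm` with `i = m` and `j = a * k + (b - 1) * m > m`).
* `es_large`: `j = k + m + (j - k - m)`, `Nat.exists_add_mul_eq_of_gcd_dvd_of_mul_pred_le` for `j - k - m`
  (divisible by the gcd, at least `(k - 1) * (m - 1)`), so `j = (a + 1) * k + (b + 1) * m`.
* `mem_LG_of_gr`: the statement for all `g` with `Fl (d * j) (mt g - 1)` and `i + j ≥ n + 2` (say) by
  induction on `i`: if `n + 2 ≤ d * j` then `mt g = 1` (`Fl.eq_zero`, `mt_inj`). Otherwise `IsAut.lead` gives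
  `Lead (d * j) α (mt g)`. Let `e = Es n (d * j) _ (-α)`, in `LG S` by `hE`. Then `g' = g * e` satisfies
  `Lead (d * j) (α + -α) (mt g')` (`Lead.mul`, `Lead_Em`), so `Fl (d * j + 1) (mt g' - 1)` (`Lead_zero_iff`),
  `g'` is graded (`Gr.mul`, `Gr_Em`), a substitution (`isAut_Es`), so `Fl (d * (j + 1)) (mt g' - 1)` (`fl_next`),
  `g' ∈ LG S` by induction and `g = g' * e⁻¹`.
-/

set_option autoImplicit false

namespace Pool.Agent.H81.NL

variable {n : ℕ}

/-- The one-parameter group of order `j` is in the limit group. -/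
def InE (S : Subgroup (SLn n)) (j : ℕ) : Prop := ∀ (hj : 1 ≤ j) (t : ℝ), Es n j hj t ∈ LG S

theorem es_comm {S : Subgroup (SLn n)} {i j : ℕ} (hi : 1 ≤ i) (hj : 1 ≤ j) (hij : i ≠ j)
    (h1 : InE S i) (h2 : InE S j) : InE S (i + j) := by
  intro hij' t
  have hl : Lead (i + j) (1 * 1 * ((i : ℝ) - j))
      (mt (Es n i hi 1 * Es n j hj 1 * (Es n i hi 1)⁻¹ * (Es n j hj 1)⁻¹)) :=
    Lead_comm hi hj (Lead_Em hi 1) (Lead_Em hj 1)
  refine Es_mem_of_LG hij' hl ?_ ?_ t
  · rw [one_mul, one_mul]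
    exact sub_ne_zero.2 (fun h => hij (Nat.cast_injective h))
  · exact (LG S).mul_mem ((LG S).mul_mem ((LG S).mul_mem (h1 hi 1) (h2 hj 1))
      ((LG S).inv_mem (h1 hi 1))) ((LG S).inv_mem (h2 hj 1))

theorem es_combo {S : Subgroup (SLn n)} {k m : ℕ} (hk : 1 ≤ k) (hm : 1 ≤ m) (hkm : k ≠ m)
    (h1 : InE S k) (h2 : InE S m) (a b : ℕ) : InE S ((a + 1) * k + (b + 1) * m) := by
  have hA : ∀ a : ℕ, InE S ((a + 1) * k + m) := by
    intro a
    induction a with
    | zero =>
      rw [zero_add, one_mul]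
      exact es_comm hk hm hkm h1 h2
    | succ a ih =>
      have e : (a + 1 + 1) * k + m = k + ((a + 1) * k + m) := by ring
      rw [e]
      have h3 : k ≤ (a + 1) * k := Nat.le_mul_of_pos_left k (Nat.succ_pos a)
      exact es_comm hk (by omega) (by omega) h1 ih
  induction b with
  | zero =>
    rw [zero_add, one_mul]
    exact hA a
  | succ b ih =>
    have e : (a + 1) * k + (b + 1 + 1) * m = m + ((a + 1) * k + (b + 1) * m) := by ring
    rw [e]
    have h3 : k ≤ (a + 1) * k := Nat.le_mul_of_pos_left k (Nat.succ_pos a)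
    have h4 : m ≤ (b + 1) * m := Nat.le_mul_of_pos_left m (Nat.succ_pos b)
    exact es_comm hm (by omega) (by omega) h2 ih

theorem es_large {S : Subgroup (SLn n)} {k m : ℕ} (hk : 1 ≤ k) (hm : 1 ≤ m) (hkm : k ≠ m)
    (h1 : InE S k) (h2 : InE S m) {j : ℕ} (hd : k.gcd m ∣ j) (hj : k * m + k + m ≤ j) :
    InE S j := by
  obtain ⟨r, hr⟩ : ∃ r, j = r + k + m := ⟨j - k - m, by omega⟩
  have hdr : k.gcd m ∣ r := by
    have h3 : k.gcd m ∣ k + m := dvd_add (Nat.gcd_dvd_left k m) (Nat.gcd_dvd_right k m)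
    have h4 : k.gcd m ∣ r + (k + m) := by
      rw [← add_assoc, ← hr]
      exact hd
    exact (Nat.dvd_add_left h3).1 h4
  have hle : (k - 1) * (m - 1) ≤ r := by
    have h5 : (k - 1) * (m - 1) ≤ k * m := Nat.mul_le_mul (Nat.sub_le _ _) (Nat.sub_le _ _)
    omega
  obtain ⟨a, b, hab⟩ := Nat.exists_add_mul_eq_of_gcd_dvd_of_mul_pred_le k m r hdr hle
  have e : j = (a + 1) * k + (b + 1) * m := by
    rw [hr, ← hab]
    ring
  rw [e]
  exact es_combo hk hm hkm h1 h2 a b

theorem mem_LG_of_gr {S : Subgroup (SLn n)} {d J : ℕ} (hd : 1 ≤ d) (hJ : 1 ≤ J)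
    (hE : ∀ j, d ∣ j → d * J ≤ j → InE S j) {g : SLn n} (hg : IsAut g) (hgr : Gr d (mt g))
    (hfl : Fl (d * J) (mt g - 1)) : g ∈ LG S := by
  have hone : ∀ (j : ℕ) (g : SLn n), n + 2 ≤ d * j → Fl (d * j) (mt g - 1) → g ∈ LG S := by
    intro j g hn hf
    have h1 : mt g - 1 = 0 := hf.eq_zero hn
    have h2 : g = 1 := by
      apply mt_inj
      rw [mt_one]
      exact sub_eq_zero.1 h1
    rw [h2]
    exact (LG S).one_mem
  have key : ∀ (i j : ℕ) (g : SLn n), J ≤ j → n + 2 ≤ i + d * j → IsAut g → Gr d (mt g) →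
      Fl (d * j) (mt g - 1) → g ∈ LG S := by
    intro i
    induction i with
    | zero =>
      intro j g _ hn _ _ hf
      exact hone j g (by omega) hf
    | succ i ih =>
      intro j g hJj hn hau hg hf
      have hdj : 1 ≤ d * j := Nat.mul_pos hd (le_trans hJ hJj)
      obtain ⟨α, hα⟩ := hau.lead hdj hf
      have heS : Es n (d * j) hdj (-α) ∈ LG S :=
        hE (d * j) (dvd_mul_right d j) (Nat.mul_le_mul_left d hJj) hdj (-α)
      have hlead : Lead (d * j) (α + -α) (mt (g * Es n (d * j) hdj (-α))) :=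
        Lead.mul hdj hα (Lead_Em hdj (-α))
      rw [add_neg_cancel, Lead_zero_iff] at hlead
      have hgr' : Gr d (mt (g * Es n (d * j) hdj (-α))) :=
        Gr.mul hg (Gr_Em (dvd_mul_right d j) (-α))
      have hf' := fl_next hgr' hlead
      have hn' : n + 2 ≤ i + d * (j + 1) := by
        have : d * (j + 1) = d * j + d := by ring
        omega
      have hmem := ih (j + 1) _ (by omega) hn' (hau.mul (isAut_Es hdj (-α))) hgr' hf'
      have e : g = g * Es n (d * j) hdj (-α) * (Es n (d * j) hdj (-α))⁻¹ := by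
        rw [mul_assoc, mul_inv_cancel, mul_one]
      rw [e]
      exact (LG S).mul_mem hmem ((LG S).inv_mem heS)
  exact key (n + 2) J g le_rfl (by omega) hg hgr hfl

end Pool.Agent.H81.NL
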