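import Pool.Agent.H81.NL.Sl

/-!
# Rescaling limits of groups of unitriangular matrices
-/

set_option autoImplicit false

namespace Pool.Agent.H81.NL

open Polynomial Filter Topology

variable {n : ℕ}

/-! ### Binomial coefficients -/

theorem tendsto_choose_mul {ι : Type*} {l : Filter ι} {m : ι → ℕ} {μ : ι → ℝ} {τ : ℝ}
    (hμ : Tendsto μ l (𝓝 0)) (hm : Tendsto (fun i => (m i : ℝ) * μ i) l (𝓝 τ)) (r : ℕ) :
    Tendsto (fun i => ((m i).choose r : ℝ) * μ i ^ r) l (𝓝 (τ ^ r / r.factorial)) := by
  induction r with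
  | zero =>
    simp only [Nat.choose_zero_right, Nat.cast_one, pow_zero, mul_one, Nat.factorial_zero, div_one]
    exact tendsto_const_nhds
  | succ r ih =>
    have h1 : ∀ i, ((m i).choose (r + 1) : ℝ) * μ i ^ (r + 1) =
        (((m i).choose r : ℝ) * μ i ^ r) * ((m i : ℝ) * μ i - r * μ i) / (r + 1) := by
      intro i
      have h2 : ((m i).choose (r + 1) : ℝ) * (r + 1) = (m i).choose r * ((m i : ℝ) - r) := by
        rcases Nat.lt_or_ge (m i) r with h | h
        · rw [Nat.choose_eq_zero_of_lt h, Nat.choose_eq_zero_of_lt (by omega)]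
          simp
        · have h3 := Nat.choose_succ_right_eq (m i) r
          have h4 : (((m i).choose (r + 1) * (r + 1) : ℕ) : ℝ) =
              (((m i).choose r * (m i - r) : ℕ) : ℝ) := by rw [h3]
          rw [Nat.cast_mul, Nat.cast_mul, Nat.cast_sub h] at h4
          push_cast at h4
          exact h4
      have h5 : (r : ℝ) + 1 ≠ 0 := by positivity
      field_simp
      rw [pow_succ]
      linear_combination (μ i ^ r * μ i) * h2
    simp only [h1]
    have h6 : Tendsto (fun i => (m i : ℝ) * μ i - r * μ i) l (𝓝 τ) := by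
      have := hm.sub (hμ.const_mul (r : ℝ))
      simpa using this
    have h7 := (ih.mul h6).div_const ((r : ℝ) + 1)
    refine h7.congr' ?_ |>.trans (le_of_eq ?_)
    · exact Eventually.of_forall fun i => rfl
    · congr 1
      rw [Nat.factorial_succ, pow_succ]
      push_cast
      field_simp

/-- The power of `1 + U` for nilpotent `U`. -/
theorem one_add_pow_eq {U : Mt n} (hU : Fl 1 U) (m : ℕ) :
    (1 + U) ^ m = ∑ r ∈ Finset.range (n + 2), ((m.choose r : ℕ) : ℝ) • U ^ r := by
  have hz : ∀ r, n + 2 ≤ r → U ^ r = 0 := fun r hr =>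
    (hU.pow r).eq_zero (by rw [mul_one]; exact hr)
  have h1 : (1 + U) ^ m = ∑ r ∈ Finset.range (m + 1), ((m.choose r : ℕ) : ℝ) • U ^ r := by
    rw [add_comm (1 : Mt n) U, (Commute.one_right U).add_pow]
    refine Finset.sum_congr rfl fun r _ => ?_
    rw [one_pow, mul_one, Nat.cast_smul_eq_nsmul, nsmul_eq_mul]
    exact ((Nat.cast_commute _ _).eq).symm
  rw [h1]
  have h2 : ∑ r ∈ Finset.range (m + 1), ((m.choose r : ℕ) : ℝ) • U ^ r =
      ∑ r ∈ Finset.range (m + 1 + (n + 2)), ((m.choose r : ℕ) : ℝ) • U ^ r := by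
    refine Finset.sum_subset (Finset.range_mono (by omega)) fun r _ hr => ?_
    rw [Finset.mem_range, not_lt] at hr
    rw [Nat.choose_eq_zero_of_lt (by omega), Nat.cast_zero, zero_smul]
  have h3 : ∑ r ∈ Finset.range (n + 2), ((m.choose r : ℕ) : ℝ) • U ^ r =
      ∑ r ∈ Finset.range (m + 1 + (n + 2)), ((m.choose r : ℕ) : ℝ) • U ^ r := by
    refine Finset.sum_subset (Finset.range_mono (by omega)) fun r _ hr => ?_
    rw [Finset.mem_range, not_lt] at hr
    rw [hz r hr, smul_zero]
  rw [h2, h3]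


end Pool.Agent.H81.NL
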