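import Pool.Agent.H81.NL.Lim1

set_option autoImplicit false

namespace Pool.Agent.H81.NL

open Polynomial Filter Topology

variable {n : ℕ}

/-- The rescaled leading term. -/
theorem tendsto_scm_sub {j : ℕ} {α : ℝ} {g : Mt n} (hg : Lead j α g) :
    Tendsto (fun lam : ℝ => (lam ^ j)⁻¹ • (scm lam g - 1)) (𝓝[>] 0) (𝓝 (α • Dm n j)) := by
  suffices key : ∀ a b : Fin (n + 2),
      Tendsto (fun lam : ℝ => ((lam ^ j)⁻¹ • (scm lam g - 1)) a b) (𝓝[>] 0)
        (𝓝 ((α • Dm n j) a b)) from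
    tendsto_pi_nhds.2 fun a => tendsto_pi_nhds.2 fun b => key a b
  intro a b
  have hval : ∀ lam : ℝ, 0 < lam → ((lam ^ j)⁻¹ • (scm lam g - 1)) a b =
      (lam ^ j)⁻¹ * (lam⁻¹ ^ (a : ℕ) * (g - 1) a b * lam ^ (b : ℕ)) := by
    intro lam hlam
    rw [Matrix.smul_apply, Matrix.sub_apply, scm_apply, Matrix.sub_apply, smul_eq_mul]
    congr 1
    by_cases h : a = b
    · subst h
      rw [Matrix.one_apply_eq]
      have : lam⁻¹ ^ (a : ℕ) * lam ^ (a : ℕ) = 1 := by
        rw [← mul_pow, inv_mul_cancel₀ hlam.ne', one_pow]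
      rw [mul_sub, sub_mul, mul_one, this]
    · rw [Matrix.one_apply_ne h]
      ring
  rcases lt_trichotomy (b : ℕ) ((a : ℕ) + j) with h | h | h
  · have h1 : (g - 1) a b = 0 := hg.fl a b h
    have h2 : (α • Dm n j) a b = 0 := ((Fl_Dm n j).smul α) a b h
    rw [h2]
    refine tendsto_const_nhds.congr' ?_
    filter_upwards [self_mem_nhdsWithin] with lam hlam
    rw [hval lam hlam, h1]
    ring
  · have h1 : (g - 1) a b = α * (a : ℕ) := by
      have := hg a b (by omega)
      rw [Matrix.sub_apply, Matrix.smul_apply, Dm_apply, if_pos h, smul_eq_mul] at this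
      linarith
    have h2 : (α • Dm n j) a b = α * (a : ℕ) := by
      rw [Matrix.smul_apply, Dm_apply, if_pos h, smul_eq_mul]
    rw [h2]
    refine tendsto_const_nhds.congr' ?_
    filter_upwards [self_mem_nhdsWithin] with lam hlam
    have hl : lam ≠ 0 := ne_of_gt hlam
    rw [hval lam hlam, h1, h, pow_add, inv_pow]
    field_simp
  · have h2 : (α • Dm n j) a b = 0 := by
      rw [Matrix.smul_apply, Dm_apply, if_neg (by omega), smul_zero]
    rw [h2]
    obtain ⟨e, he⟩ : ∃ e, (b : ℕ) = a + j + (e + 1) := ⟨b - a - j - 1, by omega⟩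
    have h3 : Tendsto (fun lam : ℝ => (g - 1) a b * lam ^ (e + 1)) (𝓝[>] 0) (𝓝 0) := by
      have : Tendsto (fun lam : ℝ => (g - 1) a b * lam ^ (e + 1)) (𝓝 0)
          (𝓝 ((g - 1) a b * 0 ^ (e + 1))) :=
        (Continuous.tendsto (by fun_prop) 0)
      rw [zero_pow (by omega), mul_zero] at this
      exact this.mono_left nhdsWithin_le_nhds
    refine h3.congr' ?_
    filter_upwards [self_mem_nhdsWithin] with lam hlam
    rw [hval lam hlam, he, pow_add lam (a + j), pow_add lam a j, inv_pow]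
    have hl : lam ≠ 0 := ne_of_gt hlam
    field_simp


end Pool.Agent.H81.NL
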