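import Pool.Agent.H81.NL.Lim2

set_option autoImplicit false

namespace Pool.Agent.H81.NL

open Polynomial Filter Topology

variable {n : ℕ}

/-- The rescaling limit of the powers of `g` is the one-parameter group of its leading term. -/
theorem tendsto_sc_pow {j : ℕ} (hj : 1 ≤ j) {α : ℝ} {g : SLn n} (hg : Lead j α (mt g))
    (hα : α ≠ 0) {t : ℝ} (ht : 0 ≤ t / α) {U : Set (SLn n)} (hU : U ∈ 𝓝 (Es n j hj t)) :
    ∀ᶠ lam : ℝ in 𝓝[>] 0, ∀ hl : lam ≠ 0, ∃ m : ℕ, sc lam hl (g ^ m) ∈ U := by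
  set τ := t / α with hτ
  have hτα : τ * α = t := by
    rw [hτ]
    field_simp
  set m : ℝ → ℕ := fun lam => ⌊τ / lam ^ j⌋₊ with hm
  have hpow : Tendsto (fun lam : ℝ => lam ^ j) (𝓝[>] 0) (𝓝 0) := by
    have h1 : Tendsto (fun lam : ℝ => lam ^ j) (𝓝 0) (𝓝 (0 ^ j)) :=
      Continuous.tendsto (by fun_prop) 0
    rw [zero_pow (by omega)] at h1
    exact h1.mono_left nhdsWithin_le_nhds
  have hmμ : Tendsto (fun lam : ℝ => (m lam : ℝ) * lam ^ j) (𝓝[>] 0) (𝓝 τ) := by
    have h1 : Tendsto (fun lam : ℝ => τ - lam ^ j) (𝓝[>] 0) (𝓝 τ) := by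
      simpa using tendsto_const_nhds.sub hpow
    refine tendsto_of_tendsto_of_tendsto_of_le_of_le' h1 tendsto_const_nhds ?_ ?_
    · filter_upwards [self_mem_nhdsWithin] with lam hlam
      have hp : 0 < lam ^ j := pow_pos hlam j
      have h2 := (Nat.lt_floor_add_one (τ / lam ^ j)).le
      rw [div_le_iff₀ hp] at h2
      have : ((m lam : ℝ) + 1) * lam ^ j = m lam * lam ^ j + lam ^ j := by ring
      rw [hm] at this ⊢
      linarith
    · filter_upwards [self_mem_nhdsWithin] with lam hlam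
      have hp : 0 < lam ^ j := pow_pos hlam j
      have h2 := Nat.floor_le (div_nonneg ht hp.le)
      rw [le_div_iff₀ hp] at h2
      exact h2
  -- convergence of the matrices
  have hconv : Tendsto (fun lam : ℝ => (scm lam (mt g)) ^ m lam) (𝓝[>] 0) (𝓝 (Em n j t)) := by
    have h1 : ∀ᶠ lam : ℝ in 𝓝[>] 0, (scm lam (mt g)) ^ m lam =
        ∑ r ∈ Finset.range (n + 2), (((m lam).choose r : ℝ) * (lam ^ j) ^ r) •
          ((lam ^ j)⁻¹ • (scm lam (mt g) - 1)) ^ r := by
      filter_upwards [self_mem_nhdsWithin] with lam hlam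
      have hp : (lam : ℝ) ^ j ≠ 0 := (pow_pos hlam j).ne'
      have hl : lam ≠ 0 := ne_of_gt hlam
      have h2 : Fl 1 (scm lam (mt g) - 1) := by
        intro a b hab
        have h3 : (mt g - 1) a b = 0 := hg.fl a b (by omega)
        have h4 : mt g a b = (1 : Mt n) a b := by
          rw [Matrix.sub_apply] at h3
          linarith
        rw [Matrix.sub_apply, scm_apply, h4]
        by_cases h : a = b
        · subst h
          rw [Matrix.one_apply_eq, mul_one, ← mul_pow, inv_mul_cancel₀ hl, one_pow, sub_self]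
        · rw [Matrix.one_apply_ne h]
          ring
      have h5 := one_add_pow_eq h2 (m lam)
      rw [add_sub_cancel] at h5
      rw [h5]
      refine Finset.sum_congr rfl fun r _ => ?_
      rw [_root_.smul_pow, smul_smul, mul_assoc, inv_pow, mul_inv_cancel₀ (pow_ne_zero r hp), mul_one]
    refine Tendsto.congr' (h1.mono fun _ h => h.symm) ?_
    unfold Em
    refine tendsto_finsetSum _ fun r _ => ?_
    have h6 := tendsto_choose_mul hpow hmμ r
    have h7 := (tendsto_scm_sub hg).pow r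
    have h8 := h6.smul h7
    have e : (τ ^ r / (r.factorial : ℝ)) • (α • Dm n j) ^ r =
        (t ^ r / (r.factorial : ℝ)) • Dm n j ^ r := by
      rw [_root_.smul_pow, smul_smul, ← hτα, mul_pow]
      congr 1
      ring
    rw [e] at h8
    exact h8
  -- transfer to `SL`
  obtain ⟨V, hV, hVU⟩ : ∃ V ∈ 𝓝 (Em n j t), (fun g : SLn n => mt g) ⁻¹' V ⊆ U := by
    have h1 : U ∈ comap (fun g : SLn n => mt g) (𝓝 (mt (Es n j hj t))) := by
      rw [← nhds_induced]
      exact hU
    exact mem_comap.1 h1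
  have hev := hconv.eventually hV
  filter_upwards [hev] with lam hlam hl
  refine ⟨m lam, hVU ?_⟩
  show mt (sc lam hl (g ^ m lam)) ∈ V
  rw [map_pow]
  have e : mt ((sc lam hl g) ^ m lam) = (scm lam (mt g)) ^ m lam := by
    show ((sc lam hl g ^ m lam : SLn n) : Matrix (Fin (n + 2)) (Fin (n + 2)) ℝ) = _
    rw [Matrix.SpecialLinearGroup.coe_pow]
    rfl
  rw [e]
  exact hlam


end Pool.Agent.H81.NL
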