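import Pool.Agent.H81.NL.Lim3

set_option autoImplicit false

namespace Pool.Agent.H81.NL

open Polynomial Filter Topology

variable {n : ℕ}

/-! ### The limit group -/

/-- The lower limit of the rescalings of a set `S`. -/
def LL (S : Set (SLn n)) : Set (SLn n) :=
  {g | ∀ U ∈ 𝓝 g, ∀ᶠ lam : ℝ in 𝓝[>] 0, ∀ hl : lam ≠ 0, ∃ s ∈ S, sc lam hl s ∈ U}

theorem LL_closed (S : Set (SLn n)) {g : SLn n} (h : ∀ U ∈ 𝓝 g, ∃ s ∈ LL S, s ∈ U) :
    g ∈ LL S := by
  intro U hU
  obtain ⟨V, hVU, hVo, hgV⟩ := mem_nhds_iff.1 hU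
  obtain ⟨s, hs, hsV⟩ := h V (hVo.mem_nhds hgV)
  filter_upwards [hs V (hVo.mem_nhds hsV)] with lam hlam hl
  obtain ⟨s', hs', h'⟩ := hlam hl
  exact ⟨s', hs', hVU h'⟩

theorem sc_congr {lam mu : ℝ} (e : lam = mu) (hl : lam ≠ 0) (hm : mu ≠ 0) (g : SLn n) :
    sc lam hl g = sc mu hm g := by
  subst e
  rfl

theorem LL_sc {S : Set (SLn n)} {g : SLn n} (hg : g ∈ LL S) {mu : ℝ} (hmu : 0 < mu)
    (hm : mu ≠ 0) : sc mu hm g ∈ LL S := by
  intro U hU
  have h1 : (sc mu hm) ⁻¹' U ∈ 𝓝 g := (continuous_sc hm).continuousAt.preimage_mem_nhds hU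
  have h2 := hg _ h1
  have h3 : Tendsto (fun lam : ℝ => lam / mu) (𝓝[>] 0) (𝓝[>] 0) := by
    refine tendsto_nhdsWithin_iff.2 ⟨?_, ?_⟩
    · have : Tendsto (fun lam : ℝ => lam / mu) (𝓝 0) (𝓝 (0 / mu)) :=
        Continuous.tendsto (by fun_prop) 0
      rw [zero_div] at this
      exact this.mono_left nhdsWithin_le_nhds
    · filter_upwards [self_mem_nhdsWithin] with lam hlam
      exact div_pos hlam hmu
  have h4 := h3.eventually h2
  refine h4.mono fun lam hlam hl => ?_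
  have hd : lam / mu ≠ 0 := div_ne_zero hl hm
  obtain ⟨s, hs, h'⟩ := hlam hd
  refine ⟨s, hs, ?_⟩
  have e : sc mu hm (sc (lam / mu) hd s) = sc lam hl s := by
    rw [sc_sc]
    exact sc_congr (div_mul_cancel₀ lam hm) _ _ _
  rw [Set.mem_preimage, e] at h'
  exact h'

/-- The limit group. -/
def LG (S : Subgroup (SLn n)) : Subgroup (SLn n) where
  carrier := LL (S : Set (SLn n))
  mul_mem' := by
    intro g h hg hh U hU
    have h1 : Tendsto (fun p : SLn n × SLn n => p.1 * p.2) (𝓝 (g, h)) (𝓝 (g * h)) :=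
      continuous_mul.tendsto (g, h)
    have h2 : (fun p : SLn n × SLn n => p.1 * p.2) ⁻¹' U ∈ 𝓝 (g, h) := h1.eventually hU
    rw [nhds_prod_eq, mem_prod_iff] at h2
    obtain ⟨V, hV, W, hW, hVW⟩ := h2
    filter_upwards [hg V hV, hh W hW] with lam h3 h4 hl
    obtain ⟨s, hs, h5⟩ := h3 hl
    obtain ⟨s', hs', h6⟩ := h4 hl
    refine ⟨s * s', S.mul_mem hs hs', ?_⟩
    have h7 := hVW (Set.mk_mem_prod h5 h6)
    rw [Set.mem_preimage] at h7
    rw [map_mul]
    exact h7
  one_mem' := by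
    intro U hU
    filter_upwards with lam hl
    refine ⟨1, S.one_mem, ?_⟩
    rw [map_one]
    exact mem_of_mem_nhds hU
  inv_mem' := by
    intro g hg U hU
    have h1 : Tendsto (fun p : SLn n => p⁻¹) (𝓝 g) (𝓝 g⁻¹) := continuous_inv.tendsto g
    have h2 : (fun p : SLn n => p⁻¹) ⁻¹' U ∈ 𝓝 g := h1.eventually hU
    filter_upwards [hg _ h2] with lam h3 hl
    obtain ⟨s, hs, h5⟩ := h3 hl
    refine ⟨s⁻¹, S.inv_mem hs, ?_⟩
    rw [Set.mem_preimage] at h5
    rw [map_inv]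
    exact h5

theorem mem_LG {S : Subgroup (SLn n)} {g : SLn n} : g ∈ LG S ↔ g ∈ LL (S : Set (SLn n)) :=
  Iff.rfl

/-- Continuity of the evaluation of a word. -/
theorem continuous_lift {α G : Type*} [Group G] [TopologicalSpace G] [IsTopologicalGroup G]
    (w : FreeGroup α) : Continuous fun f : α → G => FreeGroup.lift f w := by
  induction w using FreeGroup.induction_on with
  | C1 => simpa using continuous_const
  | of a => simpa using continuous_apply a
  | inv_of a _ =>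
    simp only [map_inv, FreeGroup.lift_apply_of]
    exact (continuous_apply a).inv
  | mul x y hx hy =>
    simp only [map_mul]
    exact hx.mul hy

/-- The limit group satisfies the laws of the group. -/
theorem LG_law {S : Subgroup (SLn n)} {α : Type} [Finite α] {w : FreeGroup α}
    (hS : ∀ f : α → SLn n, (∀ a, f a ∈ S) → FreeGroup.lift f w = 1) (f : α → SLn n)
    (hf : ∀ a, f a ∈ LG S) : FreeGroup.lift f w = 1 := by
  by_contra hne
  have hopen : IsOpen {f : α → SLn n | FreeGroup.lift f w ≠ 1} :=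
    (continuous_lift w).isOpen_preimage _ isOpen_compl_singleton
  have hmem : {f : α → SLn n | FreeGroup.lift f w ≠ 1} ∈ 𝓝 f := hopen.mem_nhds hne
  rw [nhds_pi, Filter.mem_pi'] at hmem
  obtain ⟨I, t, ht, hIt⟩ := hmem
  have h1 : ∀ᶠ lam : ℝ in 𝓝[>] 0, ∀ a, ∀ hl : lam ≠ 0, ∃ s ∈ (S : Set (SLn n)),
      sc lam hl s ∈ t a := eventually_all.2 fun a => hf a (t a) (ht a)
  obtain ⟨lam, hlam, hpos⟩ := (h1.and self_mem_nhdsWithin).exists
  have hl : lam ≠ 0 := ne_of_gt hpos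
  choose s hs hst using fun a => hlam a hl
  have h2 : (fun a => sc lam hl (s a)) ∈ (I : Set α).pi t := fun a _ => hst a
  have h3 := hIt h2
  apply h3
  have h4 : FreeGroup.lift (fun a => sc lam hl (s a)) w =
      sc lam hl (FreeGroup.lift s w) := by
    have : (FreeGroup.lift fun a => sc lam hl (s a)) = (sc lam hl).comp (FreeGroup.lift s) := by
      ext a
      simp
    rw [this]
    rfl
  rw [h4, hS s hs, map_one]

/-- One-parameter groups in the limit group, from elements of the limit group. -/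
theorem Es_mem_of_LG {S : Subgroup (SLn n)} {j : ℕ} (hj : 1 ≤ j) {α : ℝ} {g : SLn n}
    (hg : Lead j α (mt g)) (hα : α ≠ 0) (hgS : g ∈ LG S) (t : ℝ) : Es n j hj t ∈ LG S := by
  have main : ∀ (α : ℝ) (g : SLn n), Lead j α (mt g) → α ≠ 0 → g ∈ LG S → 0 ≤ t / α →
      Es n j hj t ∈ LG S := by
    intro α g hg hα hgS ht
    refine LL_closed _ fun U hU => ?_
    obtain ⟨lam, hlam, hpos⟩ := ((tendsto_sc_pow hj hg hα ht hU).and self_mem_nhdsWithin).exists
    have hl : lam ≠ 0 := ne_of_gt hpos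
    obtain ⟨m, hm⟩ := hlam hl
    exact ⟨_, LL_sc (mem_LG.1 ((LG S).pow_mem hgS m)) hpos hl, hm⟩
  rcases le_total 0 (t / α) with h | h
  · exact main α g hg hα hgS h
  · refine main (-α) g⁻¹ (Lead_inv hj hg) (neg_ne_zero.2 hα) ((LG S).inv_mem hgS) ?_
    rw [div_neg]
    linarith

/-- One-parameter groups in the limit group, from elements of the group. -/
theorem Es_mem_of_S {S : Subgroup (SLn n)} {j : ℕ} (hj : 1 ≤ j) {α : ℝ} {g : SLn n}
    (hg : Lead j α (mt g)) (hα : α ≠ 0) (hgS : g ∈ S) (t : ℝ) : Es n j hj t ∈ LG S := by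
  have main : ∀ (α : ℝ) (g : SLn n), Lead j α (mt g) → α ≠ 0 → g ∈ S → 0 ≤ t / α →
      Es n j hj t ∈ LG S := by
    intro α g hg hα hgS ht U hU
    filter_upwards [tendsto_sc_pow hj hg hα ht hU] with lam hlam hl
    obtain ⟨m, hm⟩ := hlam hl
    exact ⟨_, S.pow_mem hgS m, hm⟩
  rcases le_total 0 (t / α) with h | h
  · exact main α g hg hα hgS h
  · refine main (-α) g⁻¹ (Lead_inv hj hg) (neg_ne_zero.2 hα) (S.inv_mem hgS) ?_
    rw [div_neg]
    linarith

end Pool.Agent.H81.NL
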