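import Mathlib

/-!
# Substitution matrices of polynomials

`MP n P` is the matrix of the substitution `q ↦ q ∘ P` on polynomials modulo `X ^ (n + 2)`
(row convention: row `i` holds the coefficients of `P ^ i`).  `Fl r A` says that `A` has only
entries at least `r` above the diagonal.
-/

set_option autoImplicit false

namespace Pool.Agent.H81.NL

open Polynomial

/-- The square matrices of size `n + 2`. -/
abbrev Mt (n : ℕ) : Type := Matrix (Fin (n + 2)) (Fin (n + 2)) ℝ

/-- The matrix of the substitution `q ↦ q ∘ P` modulo `X ^ (n + 2)`. -/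
noncomputable def MP (n : ℕ) (P : ℝ[X]) : Mt n :=
  Matrix.of fun i j => (P ^ (i : ℕ)).coeff j

theorem MP_apply (n : ℕ) (P : ℝ[X]) (i j : Fin (n + 2)) : MP n P i j = (P ^ (i : ℕ)).coeff j :=
  rfl

theorem coeff_pow_zero_of_lt {Q : ℝ[X]} (hQ : Q.coeff 0 = 0) {l j : ℕ} (h : j < l) :
    (Q ^ l).coeff j = 0 := by
  obtain ⟨R, hR⟩ := X_dvd_iff.2 hQ
  rw [hR, mul_pow, coeff_X_pow_mul', if_neg (by omega)]

theorem MP_comp (n : ℕ) (P Q : ℝ[X]) (hQ : Q.coeff 0 = 0) :
    MP n (P.comp Q) = MP n P * MP n Q := by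
  ext i j
  rw [Matrix.mul_apply]
  simp only [MP_apply]
  rw [← pow_comp]
  set R := P ^ (i : ℕ)
  rw [comp_eq_sum_left, sum_over_range' R (fun n => by simp) (R.natDegree + 1 + (n + 2))
    (by omega), finsetSum_coeff]
  simp only [coeff_C_mul]
  rw [Fin.sum_univ_eq_sum_range (fun l => R.coeff l * (Q ^ l).coeff (j : ℕ)) (n + 2)]
  symm
  refine Finset.sum_subset (Finset.range_mono (by omega)) fun l _ hl => ?_
  rw [Finset.mem_range, not_lt] at hl
  rw [coeff_pow_zero_of_lt hQ (lt_of_lt_of_le j.2 hl), mul_zero]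

theorem MP_X (n : ℕ) : MP n X = 1 := by
  ext i j
  rw [MP_apply, coeff_X_pow, Matrix.one_apply]
  by_cases h : i = j
  · rw [if_pos h, if_pos (by rw [h])]
  · rw [if_neg h, if_neg (fun h' => h (Fin.ext h'.symm))]

theorem coeff_eq_of_dvd {P Q : ℝ[X]} {m : ℕ} (h : X ^ m ∣ P - Q) {j : ℕ} (hj : j < m) :
    P.coeff j = Q.coeff j := by
  have := (X_pow_dvd_iff.1 h) j hj
  rw [coeff_sub] at this
  linarith

theorem dvd_of_coeff_eq {P Q : ℝ[X]} {m : ℕ} (h : ∀ j, j < m → P.coeff j = Q.coeff j) :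
    X ^ m ∣ P - Q :=
  X_pow_dvd_iff.2 fun j hj => by rw [coeff_sub, h j hj, sub_self]

/-- `MP n P` depends only on `P` modulo `X ^ (n + 2)`. -/
theorem MP_congr {n : ℕ} {P Q : ℝ[X]} (h : X ^ (n + 2) ∣ P - Q) : MP n P = MP n Q := by
  ext i j
  rw [MP_apply, MP_apply]
  exact coeff_eq_of_dvd (h.trans (sub_dvd_pow_sub_pow P Q i)) j.2

/-! ### The filtration -/

/-- All entries are at least `r` above the diagonal. -/
def Fl {n : ℕ} (r : ℕ) (A : Mt n) : Prop := ∀ a b : Fin (n + 2), (b : ℕ) < a + r → A a b = 0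

section

variable {n : ℕ} {r s : ℕ} {A B : Mt n}

theorem Fl.mul (hA : Fl r A) (hB : Fl s B) : Fl (r + s) (A * B) := by
  intro a b hab
  rw [Matrix.mul_apply]
  refine Finset.sum_eq_zero fun c _ => ?_
  by_cases hc : (c : ℕ) < a + r
  · rw [hA a c hc, zero_mul]
  · rw [hB c b (by omega), mul_zero]

theorem Fl.add (hA : Fl r A) (hB : Fl r B) : Fl r (A + B) := fun a b h => by
  rw [Matrix.add_apply, hA a b h, hB a b h, add_zero]

theorem Fl.sub (hA : Fl r A) (hB : Fl r B) : Fl r (A - B) := fun a b h => by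
  rw [Matrix.sub_apply, hA a b h, hB a b h, sub_zero]

theorem Fl.neg (hA : Fl r A) : Fl r (-A) := fun a b h => by
  rw [Matrix.neg_apply, hA a b h, neg_zero]

theorem Fl.smul (hA : Fl r A) (c : ℝ) : Fl r (c • A) := fun a b h => by
  rw [Matrix.smul_apply, hA a b h, smul_zero]

theorem Fl.mono (hA : Fl r A) (h : s ≤ r) : Fl s A := fun a b hab => hA a b (by omega)

theorem Fl.zero (r : ℕ) : Fl r (0 : Mt n) := fun _ _ _ => rfl

theorem Fl.one : Fl 0 (1 : Mt n) := fun a b h => by
  rw [Matrix.one_apply, if_neg]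
  rintro rfl
  omega

theorem Fl.eq_zero (hA : Fl r A) (h : n + 2 ≤ r) : A = 0 := by
  ext a b
  exact hA a b (by have := b.2; omega)

theorem Fl.pow (hA : Fl r A) (k : ℕ) : Fl (k * r) (A ^ k) := by
  induction k with
  | zero =>
    rw [zero_mul, pow_zero]
    exact Fl.one
  | succ k ih =>
    rw [pow_succ, Nat.add_mul, one_mul]
    exact ih.mul hA

theorem Fl.sum {ι : Type*} {S : Finset ι} {f : ι → Mt n} (h : ∀ i ∈ S, Fl r (f i)) :
    Fl r (∑ i ∈ S, f i) := by
  classical
  induction S using Finset.induction_on with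
  | empty => exact Fl.zero r
  | insert i S hi ih =>
    rw [Finset.sum_insert hi]
    exact (h i (Finset.mem_insert_self _ _)).add
      (ih fun j hj => h j (Finset.mem_insert_of_mem hj))

/-- A unitriangular matrix has determinant one. -/
theorem det_of_Fl (h : Fl 1 (A - 1)) : A.det = 1 := by
  have h1 : ∀ a b : Fin (n + 2), (b : ℕ) < a → A a b = 0 := by
    intro a b hab
    have := h a b (by omega)
    rw [Matrix.sub_apply, Matrix.one_apply, if_neg (by rintro rfl; omega)] at this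
    linarith
  have h2 : ∀ a : Fin (n + 2), A a a = 1 := by
    intro a
    have := h a a (by omega)
    rw [Matrix.sub_apply, Matrix.one_apply, if_pos rfl] at this
    linarith
  rw [Matrix.det_of_isUpperTriangular (fun a b hab => h1 a b hab)]
  simp [h2]

end

/-! ### The vector fields -/

/-- The matrix of `x ^ (j + 1) d/dx`. -/
def Dm (n j : ℕ) : Mt n := Matrix.of fun a b => if (b : ℕ) = a + j then ((a : ℕ) : ℝ) else 0

theorem Dm_apply (n j : ℕ) (a b : Fin (n + 2)) :
    Dm n j a b = if (b : ℕ) = a + j then ((a : ℕ) : ℝ) else 0 := rfl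

theorem Fl_Dm (n j : ℕ) : Fl j (Dm n j) := fun a b h => by
  rw [Dm_apply, if_neg (by omega)]

theorem Dm_mul (n i j : ℕ) (a b : Fin (n + 2)) :
    (Dm n i * Dm n j) a b = if (b : ℕ) = a + (i + j) then ((a : ℕ) : ℝ) * ((a : ℕ) + (i : ℝ))
      else 0 := by
  rw [Matrix.mul_apply]
  by_cases hc : (a : ℕ) + i < n + 2
  · rw [Finset.sum_eq_single (⟨(a : ℕ) + i, hc⟩ : Fin (n + 2))]
    · rw [Dm_apply, Dm_apply, if_pos rfl]
      simp only
      by_cases hb : (b : ℕ) = a + (i + j)
      · rw [if_pos hb, if_pos (by omega)]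
        push_cast
        ring
      · rw [if_neg hb, if_neg (by omega), mul_zero]
    · intro c _ hc'
      rw [Dm_apply, if_neg (fun h => hc' (Fin.ext h)), zero_mul]
    · intro h
      exact absurd (Finset.mem_univ _) h
  · rw [if_neg (by have := b.2; omega)]
    refine Finset.sum_eq_zero fun c _ => ?_
    rw [Dm_apply, if_neg (by have := c.2; omega), zero_mul]

theorem Dm_comm (n i j : ℕ) :
    Dm n i * Dm n j - Dm n j * Dm n i = ((i : ℝ) - j) • Dm n (i + j) := by
  ext a b
  rw [Matrix.sub_apply, Matrix.smul_apply, Dm_mul, Dm_mul, Dm_apply, add_comm j i]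
  split_ifs
  · rw [smul_eq_mul]
    ring
  · simp

/-- `g = 1 + α D_j + …`. -/
def Lead {n : ℕ} (j : ℕ) (α : ℝ) (g : Mt n) : Prop := Fl (j + 1) (g - 1 - α • Dm n j)

section

variable {n : ℕ} {g h : Mt n} {i j : ℕ} {α β : ℝ}

theorem Lead.fl (hg : Lead j α g) : Fl j (g - 1) := by
  have h1 := (hg.mono (Nat.le_succ j)).add ((Fl_Dm n j).smul α)
  rwa [sub_add_cancel] at h1

theorem Lead.mul (hj : 1 ≤ j) (hg : Lead j α g) (hh : Lead j β h) : Lead j (α + β) (g * h) := by
  have e : g * h - 1 - (α + β) • Dm n j =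
      (g - 1 - α • Dm n j) + (h - 1 - β • Dm n j) + (g - 1) * (h - 1) := by
    rw [add_smul]
    noncomm_ring
  unfold Lead
  rw [e]
  exact (hg.add hh).add ((hg.fl.mul hh.fl).mono (by omega))

theorem Lead_zero_iff : Lead j 0 g ↔ Fl (j + 1) (g - 1) := by
  unfold Lead
  rw [zero_smul, sub_zero]

theorem Lead.comm (hg : Lead i α g) (hh : Lead j β h) {c : Mt n}
    (hc : g * h = c * (h * g)) (hcf : ∃ k : Mt n, (h * g) * k = 1 ∧ Fl 1 (k - 1)) :
    Lead (i + j) (α * β * ((i : ℝ) - j)) c := by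
  obtain ⟨k, hk, hk1⟩ := hcf
  have e1 : c - 1 = (g * h - h * g) * k := by
    rw [sub_mul, hc, mul_assoc, hk, mul_one]
  set A := g - 1 with hA
  set B := h - 1 with hB
  have e2 : g * h - h * g = A * B - B * A := by
    rw [hA, hB]
    noncomm_ring
  have e3 : Fl (i + j + 1) ((A * B - B * A) - (α * β * ((i : ℝ) - j)) • Dm n (i + j)) := by
    have e4 : (A * B - B * A) - (α * β * ((i : ℝ) - j)) • Dm n (i + j) =
        (A - α • Dm n i) * B + (α • Dm n i) * (B - β • Dm n j) -
          ((B - β • Dm n j) * A + (β • Dm n j) * (A - α • Dm n i)) := by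
      have e5 : (α * β * ((i : ℝ) - j)) • Dm n (i + j) =
          (α * β) • (Dm n i * Dm n j - Dm n j * Dm n i) := by
        rw [Dm_comm, smul_smul]
      rw [e5]
      simp only [sub_mul, mul_sub, smul_mul_assoc, mul_smul_comm, smul_sub, smul_smul]
      rw [mul_comm β α]
      abel
    rw [e4]
    refine Fl.sub (Fl.add ?_ ?_) (Fl.add ?_ ?_)
    · exact (Fl.mul (r := i + 1) hg hh.fl).mono (by omega)
    · exact (Fl.mul (s := j + 1) ((Fl_Dm n i).smul α) hh).mono (by omega)
    · exact (Fl.mul (r := j + 1) hh hg.fl).mono (by omega)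
    · exact (Fl.mul (s := i + 1) ((Fl_Dm n j).smul β) hg).mono (by omega)
  have e6 : Fl (i + j) (A * B - B * A) :=
    (hg.fl.mul hh.fl).sub ((hh.fl.mul hg.fl).mono (by omega))
  have e7 : c - 1 - (α * β * ((i : ℝ) - j)) • Dm n (i + j) =
      ((A * B - B * A) - (α * β * ((i : ℝ) - j)) • Dm n (i + j)) +
        (A * B - B * A) * (k - 1) := by
    rw [e1, e2]
    noncomm_ring
  unfold Lead
  rw [e7]
  exact e3.add ((e6.mul hk1).mono (by omega))

end

/-- The leading term of a substitution. -/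
theorem Lead_MP {n j : ℕ} {α : ℝ} {P : ℝ[X]} (hj : 1 ≤ j)
    (hP : X ^ (j + 2) ∣ P - X - C α * X ^ (j + 1)) : Lead j α (MP n P) := by
  have hX : X ∣ P := by
    have h1 : (X : ℝ[X]) ∣ P - X - C α * X ^ (j + 1) :=
      (dvd_pow_self X (by omega)).trans hP
    have h2 : (X : ℝ[X]) ∣ X + C α * X ^ (j + 1) :=
      dvd_add dvd_rfl ((dvd_pow_self X (by omega)).mul_left _)
    have h3 := dvd_add h1 h2
    rwa [show P - X - C α * X ^ (j + 1) + (X + C α * X ^ (j + 1)) = P by ring] at h3
  have hPX : X ^ (j + 1) ∣ P - X := by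
    have h1 : (X : ℝ[X]) ^ (j + 1) ∣ P - X - C α * X ^ (j + 1) :=
      (pow_dvd_pow X (by omega)).trans hP
    have h2 := dvd_add h1 (dvd_mul_left (X ^ (j + 1)) (C α))
    rwa [sub_add_cancel] at h2
  have key : ∀ a : ℕ, X ^ (a + j + 1) ∣ P ^ a - X ^ a - C ((a : ℝ) * α) * X ^ (a + j) := by
    intro a
    induction a with
    | zero => simp
    | succ a ih =>
      have e : P ^ (a + 1) - X ^ (a + 1) - C (((a + 1 : ℕ) : ℝ) * α) * X ^ (a + 1 + j) =
          P * (P ^ a - X ^ a - C ((a : ℝ) * α) * X ^ (a + j)) +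
            (P - X - C α * X ^ (j + 1)) * X ^ a +
            (P - X) * (C ((a : ℝ) * α) * X ^ (a + j)) := by
        push_cast
        simp only [map_add, map_mul, add_mul, map_one]
        ring
      rw [e]
      refine dvd_add (dvd_add ?_ ?_) ?_
      · have := mul_dvd_mul hX ih
        rwa [← pow_succ', show a + j + 1 + 1 = a + 1 + j + 1 by ring] at this
      · have := mul_dvd_mul hP (dvd_refl (X ^ a : ℝ[X]))
        rw [← pow_add] at this
        exact (pow_dvd_pow X (by omega)).trans this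
      · have := mul_dvd_mul hPX (dvd_mul_left (X ^ (a + j)) (C ((a : ℝ) * α)))
        rw [← pow_add] at this
        exact (pow_dvd_pow X (by omega)).trans this
  intro a b hab
  have h1 := (X_pow_dvd_iff.1 (key a)) b (by omega)
  rw [coeff_sub, coeff_sub, coeff_X_pow, coeff_C_mul, coeff_X_pow] at h1
  rw [Matrix.sub_apply, Matrix.sub_apply, MP_apply, Matrix.one_apply, Matrix.smul_apply, Dm_apply,
    smul_eq_mul]
  have h2 : (if a = b then (1 : ℝ) else 0) = if (b : ℕ) = a then 1 else 0 := by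
    by_cases h : a = b
    · rw [if_pos h, if_pos (by rw [h])]
    · rw [if_neg h, if_neg (fun h' => h (Fin.ext h'.symm))]
  rw [h2]
  split_ifs with c1 c2 c2
  · rw [if_pos c1, if_pos c2] at h1
    linarith
  · rw [if_pos c1, if_neg c2] at h1
    linarith
  · rw [if_neg c1, if_pos c2] at h1
    linarith
  · rw [if_neg c1, if_neg c2] at h1
    linarith

end Pool.Agent.H81.NL
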