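import Mathlib

/-!
# Module PolyA: polynomial diffeomorphisms of the line close to a given increasing function

PROOF of `exists_diffeo`. Let `G y = (√(r y) - 1) / y ^ N`, continuous on `[0, R]` (it is `0` for `|y| ≤ 1`: near
a point `y > 0` it is a quotient of continuous functions; near `0` it is constant). Weierstrass
(`exists_polynomial_near_of_continuousOn`): a polynomial `q` with `|q - G| ≤ η` on `[0, R]`. Put
`s = 1 + X ^ N * q`, so `|s - √r| ≤ R ^ N * η` on `[0, R]`, `D = s ^ 2 + C ε * X ^ (2 * N)` and let `p` be the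
polynomial with `derivative p = D`, `p.coeff 0 = 0` (`exists_antideriv`). With `√r ≤ B` on `[0, R]`:
`|D - r| ≤ R ^ N η (2 B + R ^ N η) + ε R ^ (2 N)` on `[0, R]`, so `|p y - ∫ r| ≤ R *` this `≤ δ` for small `η, ε`
(`p y = ∫ t in 0..y, D t`, fundamental theorem of calculus, `intervalIntegral.norm_integral_le_of_norm_le_const`).
`D > 0`: at `y ≠ 0` since `ε y ^ (2 N) > 0`, at `0` since `s 0 = 1` (`N ≥ 1`).
`X ^ (N + 1) ∣ p - X`: `X ^ N ∣ D - 1` and `(i + 1) * p.coeff (i + 1) = D.coeff i` (`coeff_derivative`).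
Surjective: for `y ≥ 1`, `p' ≥ ε`, so `p y ≥ p 1 + ε (y - 1)`; for `y ≤ -1`, `p y ≤ p (-1) + ε (y + 1)`; hence
`Tendsto p atTop atTop`, `Tendsto p atBot atBot`, `Continuous.surjective`.
-/

set_option autoImplicit false

namespace Pool.Agent.H81.NL

open Polynomial Filter Topology

theorem exists_antideriv (D : ℝ[X]) : ∃ p : ℝ[X], derivative p = D ∧ p.coeff 0 = 0 := by
  induction D using Polynomial.induction_on' with
  | add a b ha hb =>
    obtain ⟨p, hp, hp0⟩ := ha
    obtain ⟨q, hq, hq0⟩ := hb
    exact ⟨p + q, by rw [derivative_add, hp, hq], by rw [coeff_add, hp0, hq0, add_zero]⟩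
  | monomial n a =>
    refine ⟨monomial (n + 1) (a / ((n : ℝ) + 1)), ?_, ?_⟩
    · rw [derivative_monomial]
      have h : ((n : ℝ) + 1) ≠ 0 := by positivity
      simp only [Nat.add_sub_cancel, Nat.cast_add, Nat.cast_one]
      rw [div_mul_cancel₀ a h]
    · rw [coeff_monomial, if_neg (by omega)]

/-- continuity of the quotient -/
theorem PolyA_contG {N : ℕ} {r : ℝ → ℝ} (hr : Continuous r)
    (h1 : ∀ y, |y| ≤ 1 → r y = 1) : Continuous (fun y : ℝ => (Real.sqrt (r y) - 1) / y ^ N) := by
  rw [continuous_iff_continuousAt]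
  intro y
  by_cases hy : y = 0
  · subst hy
    have hev : (fun y : ℝ => (Real.sqrt (r y) - 1) / y ^ N) =ᶠ[𝓝 0] (fun _ => (0 : ℝ)) := by
      filter_upwards [Metric.ball_mem_nhds (0 : ℝ) one_pos] with z hz
      rw [Metric.mem_ball, Real.dist_eq, sub_zero] at hz
      rw [h1 z hz.le, Real.sqrt_one, sub_self, zero_div]
    exact continuousAt_const.congr hev.symm
  · have h2 : ContinuousAt (fun y : ℝ => Real.sqrt (r y) - 1) y :=
      ((Real.continuous_sqrt.comp hr).sub continuous_const).continuousAt
    exact h2.div (continuous_pow N).continuousAt (pow_ne_zero N hy)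

theorem exists_diffeo {N : ℕ} (hN : 1 ≤ N) {r : ℝ → ℝ} (hr : Continuous r) (h0 : ∀ y, 0 ≤ r y)
    (h1 : ∀ y, |y| ≤ 1 → r y = 1) {R : ℝ} (hR : 0 < R) {δ : ℝ} (hδ : 0 < δ) :
    ∃ p : ℝ[X], X ^ (N + 1) ∣ p - X ∧ (∀ y : ℝ, 0 < (derivative p).eval y) ∧
      Function.Surjective (fun y : ℝ => p.eval y) ∧
      ∀ y : ℝ, 0 ≤ y → y ≤ R → |p.eval y - ∫ t in (0 : ℝ)..y, r t| ≤ δ := by
  have hN0 : N ≠ 0 := by omega
  -- the bound of the square root
  obtain ⟨B, hB⟩ : ∃ B : ℝ, ∀ y ∈ Set.Icc (0 : ℝ) R, Real.sqrt (r y) ≤ B := by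
    obtain ⟨B, hB⟩ := (isCompact_Icc (a := (0 : ℝ)) (b := R)).exists_bound_of_continuousOn
      (Real.continuous_sqrt.comp hr).continuousOn
    exact ⟨B, fun y hy => (le_abs_self _).trans (hB y hy)⟩
  have hB0 : 0 ≤ B := (Real.sqrt_nonneg _).trans (hB 0 ⟨le_refl _, hR.le⟩)
  set A : ℝ := R ^ N with hA
  have hApos : 0 < A := pow_pos hR N
  have hK : 0 < 2 * R * A * (2 * B + 1) := by positivity
  set η : ℝ := min (1 / A) (δ / (2 * R * A * (2 * B + 1))) with hη
  have hηpos : 0 < η := lt_min (by positivity) (by positivity)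
  have hη1 : A * η ≤ 1 := by
    have h : η ≤ 1 / A := min_le_left _ _
    calc A * η ≤ A * (1 / A) := mul_le_mul_of_nonneg_left h hApos.le
      _ = 1 := mul_one_div_cancel hApos.ne'
  have hη2 : A * η * (2 * B + 1) ≤ δ / (2 * R) := by
    have h : η ≤ δ / (2 * R * A * (2 * B + 1)) := min_le_right _ _
    have h' : 0 ≤ A * (2 * B + 1) := by positivity
    calc A * η * (2 * B + 1) = (A * (2 * B + 1)) * η := by ring
      _ ≤ (A * (2 * B + 1)) * (δ / (2 * R * A * (2 * B + 1))) := mul_le_mul_of_nonneg_left h h'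
      _ = δ / (2 * R) := by
        field_simp
  set ε : ℝ := δ / (2 * R * A ^ 2) with hε
  have hεpos : 0 < ε := by positivity
  have hεA : ε * A ^ 2 = δ / (2 * R) := by
    rw [hε]; field_simp
  obtain ⟨q, hq⟩ := exists_polynomial_near_of_continuousOn 0 R
    (fun y : ℝ => (Real.sqrt (r y) - 1) / y ^ N) (PolyA_contG hr h1).continuousOn η hηpos
  set s : ℝ[X] := 1 + X ^ N * q with hs
  set D : ℝ[X] := s ^ 2 + C ε * X ^ (2 * N) with hD
  obtain ⟨p, hp, hp0⟩ := exists_antideriv D
  have hseval : ∀ y : ℝ, s.eval y = 1 + y ^ N * q.eval y := by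
    intro y
    rw [hs]
    simp
  have hDeval : ∀ y : ℝ, D.eval y = (s.eval y) ^ 2 + ε * y ^ (2 * N) := by
    intro y
    rw [hD]
    simp
  have hDpos : ∀ y : ℝ, 0 < D.eval y := by
    intro y
    rw [hDeval]
    by_cases hy : y = 0
    · subst hy
      rw [hseval, zero_pow hN0]
      have : (0 : ℝ) ^ (2 * N) = 0 := zero_pow (by omega)
      rw [this]
      norm_num
    · have h2 : 0 < y ^ (2 * N) := by
        rw [pow_mul]
        have : 0 < y ^ 2 := by positivity
        positivity
      have h3 : 0 ≤ (s.eval y) ^ 2 := sq_nonneg _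
      have h4 : 0 < ε * y ^ (2 * N) := mul_pos hεpos h2
      linarith
  have hder : ∀ y : ℝ, HasDerivAt (fun z : ℝ => p.eval z) (D.eval y) y := by
    intro y
    have := p.hasDerivAt y
    rwa [hp] at this
  have hcont : Continuous (fun z : ℝ => p.eval z) := p.continuous
  have hDge : ∀ y : ℝ, 1 ≤ |y| → ε ≤ D.eval y := by
    intro y hy
    rw [hDeval]
    have h2 : 1 ≤ y ^ (2 * N) := by
      rw [pow_mul, ← sq_abs]
      exact one_le_pow₀ (one_le_pow₀ hy)
    have h3 : 0 ≤ (s.eval y) ^ 2 := sq_nonneg _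
    nlinarith
  refine ⟨p, ?_, ?_, ?_, ?_⟩
  · -- divisibility
    rw [X_pow_dvd_iff]
    intro d hd
    rcases d with _ | i
    · rw [coeff_sub, hp0]
      simp
    · have hi : i < N := by omega
      have hdvd : X ^ N ∣ derivative (p - X) := by
        rw [derivative_sub, hp, derivative_X, hD, hs]
        refine ⟨2 * q + X ^ N * q ^ 2 + C ε * X ^ N, ?_⟩
        ring
      have hc : (derivative (p - X)).coeff i = 0 := (X_pow_dvd_iff.mp hdvd) i hi
      rw [coeff_derivative] at hc
      have hne : ((i : ℝ) + 1) ≠ 0 := by positivity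
      exact (mul_eq_zero.mp hc).resolve_right hne
  · intro y
    rw [hp]
    exact hDpos y
  · -- surjective
    have htop : Tendsto (fun z : ℝ => p.eval z) atTop atTop := by
      have hmv := (convex_Ici (1 : ℝ)).mul_sub_le_image_sub_of_le_deriv
        (f := fun z : ℝ => p.eval z) (C := ε) hcont.continuousOn
        (fun y _ => (hder y).differentiableAt.differentiableWithinAt)
        (by
          intro y hy
          rw [(hder y).deriv]
          apply hDge
          have : (1 : ℝ) ≤ y := by
            have := interior_subset hy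
            exact this
          exact this.trans (le_abs_self y))
      have hlin : Tendsto (fun z : ℝ => p.eval 1 + ε * (z - 1)) atTop atTop := by
        apply tendsto_atTop_add_const_left
        apply Tendsto.const_mul_atTop hεpos
        exact tendsto_atTop_add_const_right _ (-1) tendsto_id
      refine tendsto_atTop_mono' atTop ?_ hlin
      filter_upwards [eventually_ge_atTop (1 : ℝ)] with y hy
      have := hmv 1 (Set.mem_Ici.mpr le_rfl) y (Set.mem_Ici.mpr hy) hy
      linarith
    have hbot : Tendsto (fun z : ℝ => p.eval z) atBot atBot := by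
      have hmv := (convex_Iic (-1 : ℝ)).mul_sub_le_image_sub_of_le_deriv
        (f := fun z : ℝ => p.eval z) (C := ε) hcont.continuousOn
        (fun y _ => (hder y).differentiableAt.differentiableWithinAt)
        (by
          intro y hy
          rw [(hder y).deriv]
          apply hDge
          have : y ≤ (-1 : ℝ) := by
            have := interior_subset hy
            exact this
          have h2 := neg_le_abs y
          linarith)
      have hlin : Tendsto (fun z : ℝ => p.eval (-1) + ε * (z + 1)) atBot atBot := by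
        apply tendsto_atBot_add_const_left
        apply Tendsto.const_mul_atBot hεpos
        exact tendsto_atBot_add_const_right _ 1 tendsto_id
      refine tendsto_atBot_mono' atBot ?_ hlin
      filter_upwards [eventually_le_atBot (-1 : ℝ)] with y hy
      have := hmv y (Set.mem_Iic.mpr hy) (-1) (Set.mem_Iic.mpr le_rfl) hy
      linarith
    exact hcont.surjective htop hbot
  · -- closeness
    intro y hy0 hyR
    have hint : ∫ t in (0 : ℝ)..y, D.eval t = p.eval y - p.eval 0 :=
      intervalIntegral.integral_eq_sub_of_hasDerivAt (fun t _ => hder t)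
        (D.continuous.intervalIntegrable _ _)
    have hp00 : p.eval 0 = 0 := by
      rw [← coeff_zero_eq_eval_zero, hp0]
    have heq : p.eval y - ∫ t in (0 : ℝ)..y, r t = ∫ t in (0 : ℝ)..y, (D.eval t - r t) := by
      rw [intervalIntegral.integral_sub (D.continuous.intervalIntegrable _ _)
        (hr.intervalIntegrable _ _), hint, hp00, sub_zero]
    rw [heq]
    have hbd : ∀ t ∈ Set.uIoc 0 y, ‖D.eval t - r t‖ ≤ δ / R := by
      intro t ht
      rw [Set.uIoc_of_le hy0] at ht
      have ht0 : 0 ≤ t := ht.1.le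
      have htR : t ≤ R := ht.2.trans hyR
      have hsq : Real.sqrt (r t) ^ 2 = r t := Real.sq_sqrt (h0 t)
      have hG : t ^ N * ((Real.sqrt (r t) - 1) / t ^ N) = Real.sqrt (r t) - 1 := by
        have : t ^ N ≠ 0 := (pow_pos ht.1 N).ne'
        field_simp
      have hqt := hq t ⟨ht0, htR⟩
      have hsr : |s.eval t - Real.sqrt (r t)| ≤ A * η := by
        have h5 : s.eval t - Real.sqrt (r t)
            = t ^ N * (q.eval t - (Real.sqrt (r t) - 1) / t ^ N) := by
          rw [mul_sub, hG, hseval]
          ring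
        rw [h5, abs_mul, abs_of_nonneg (pow_nonneg ht0 N)]
        exact mul_le_mul (pow_le_pow_left₀ ht0 htR N) hqt.le (abs_nonneg _) hApos.le
      have hsqrtB := hB t ⟨ht0, htR⟩
      have hsqrt0 := Real.sqrt_nonneg (r t)
      have hsum : |s.eval t + Real.sqrt (r t)| ≤ 2 * B + 1 := by
        have h6 : s.eval t + Real.sqrt (r t)
            = (s.eval t - Real.sqrt (r t)) + 2 * Real.sqrt (r t) := by ring
        rw [h6]
        calc |(s.eval t - Real.sqrt (r t)) + 2 * Real.sqrt (r t)|
            ≤ |s.eval t - Real.sqrt (r t)| + |2 * Real.sqrt (r t)| := abs_add_le _ _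
          _ ≤ A * η + 2 * B := by
              apply add_le_add hsr
              rw [abs_of_nonneg (by positivity)]
              linarith
          _ ≤ 2 * B + 1 := by linarith
      have h7 : D.eval t - r t
          = (s.eval t - Real.sqrt (r t)) * (s.eval t + Real.sqrt (r t)) + ε * t ^ (2 * N) := by
        rw [hDeval]
        nlinarith [hsq]
      rw [Real.norm_eq_abs, h7]
      have h8 : |(s.eval t - Real.sqrt (r t)) * (s.eval t + Real.sqrt (r t))|
          ≤ A * η * (2 * B + 1) := by
        rw [abs_mul]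
        exact mul_le_mul hsr hsum (abs_nonneg _) (by positivity)
      have h9 : |ε * t ^ (2 * N)| ≤ ε * A ^ 2 := by
        rw [abs_of_nonneg (by positivity)]
        apply mul_le_mul_of_nonneg_left _ hεpos.le
        rw [hA, ← pow_mul, mul_comm N 2]
        exact pow_le_pow_left₀ ht0 htR _
      calc |(s.eval t - Real.sqrt (r t)) * (s.eval t + Real.sqrt (r t)) + ε * t ^ (2 * N)|
          ≤ |(s.eval t - Real.sqrt (r t)) * (s.eval t + Real.sqrt (r t))|
            + |ε * t ^ (2 * N)| := abs_add_le _ _
        _ ≤ A * η * (2 * B + 1) + ε * A ^ 2 := add_le_add h8 h9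
        _ ≤ δ / (2 * R) + δ / (2 * R) := add_le_add hη2 hεA.le
        _ = δ / R := by field_simp; ring
    have hfin := intervalIntegral.norm_integral_le_of_norm_le_const hbd
    rw [Real.norm_eq_abs] at hfin
    refine hfin.trans ?_
    rw [sub_zero, abs_of_nonneg hy0]
    calc δ / R * y ≤ δ / R * R := mul_le_mul_of_nonneg_left hyR (by positivity)
      _ = δ := div_mul_cancel₀ δ hR.ne'

end Pool.Agent.H81.NL
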