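import Mathlib

/-!
# Module Root: formal roots

PROOF of `exists_root`. Let `p = X * s` (`X ∣ p` as `X ^ (N + 1) ∣ p - X`, `N ≥ 1`), so `X ^ N ∣ s - 1`.
Claim: for every `K` there is `v` with `X ^ N ∣ v - 1` and `X ^ K ∣ v ^ d - s`. Induction on `K`: for `K ≤ N`
take `v = 1`. Step from `K ≥ N ≥ 1` to `K + 1`: `v ^ d - s = X ^ K * r`, `c = r.coeff 0`, put
`v' = v - C (c / d) * X ^ K`; modulo `X ^ (K + 1)`: `v' ^ d ≡ v ^ d - d * v ^ (d - 1) * C (c / d) * X ^ K`
(higher terms contain `X ^ (2 K)`, `2 K ≥ K + 1`; e.g. from `Polynomial.evalSubFactor`-like identities,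
`sub_dvd_pow_sub_pow`, or `(v + h) ^ d - v ^ d - d v^(d-1) h` is divisible by `h ^ 2`: `Polynomial.binomExpansion`
or induction on `d`), and `v ^ (d - 1) ≡ 1` modulo `X`. Then `P = X * v.comp (X ^ d)`, `K = M`:
`P ^ d - p.comp (X ^ d) = (X * (v ^ d - s)).comp (X ^ d)`, divisible by `X ^ (d * (K + 1))`.
The coefficients of `X * v.comp (X ^ d)`, i.e. of `X * expand ℝ d v` (`Polynomial.expand_eq_comp_X_pow`), vanish
outside the class of `1` modulo `d` (`Polynomial.coeff_expand`), and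
`P - X = X * (v - 1).comp (X ^ d)` is divisible by `X * X ^ (d * N)`.
-/

set_option autoImplicit false

namespace Pool.Agent.H81.NL

open Polynomial

/-- Newton step for formal roots. -/
theorem Root_newton {d N : ℕ} (hd : 1 ≤ d) (hN : 1 ≤ N) {s : ℝ[X]} (hs : X ^ N ∣ s - 1) (K : ℕ)
    (hK : N ≤ K) : ∃ v : ℝ[X], X ^ N ∣ v - 1 ∧ X ^ K ∣ v ^ d - s := by
  induction K, hK using Nat.le_induction with
  | base =>
    refine ⟨1, by simp, ?_⟩
    rw [one_pow]
    have h := (dvd_neg).2 hs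
    rwa [neg_sub] at h
  | succ K hK ih =>
    obtain ⟨v, hv, r, hr⟩ := ih
    set c : ℝ := r.coeff 0 with hc
    obtain ⟨k, hk⟩ := Polynomial.powAddExpansion v (-(C (c / d) * X ^ K)) d
    refine ⟨v + -(C (c / d) * X ^ K), ?_, ?_⟩
    · have h1 : v + -(C (c / d) * X ^ K) - 1 = (v - 1) - C (c / d) * X ^ K := by ring
      rw [h1]
      exact dvd_sub hv (Dvd.dvd.mul_left (pow_dvd_pow X hK) _)
    · have hv0 : v.coeff 0 = 1 := by
        have h1 : (X : ℝ[X]) ∣ v - 1 := dvd_trans (dvd_pow_self X (by omega)) hv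
        have h2 := (X_dvd_iff).1 h1
        simp only [coeff_sub, coeff_one_zero] at h2
        linarith
      have hX : (X : ℝ[X]) ∣ r - C c * v ^ (d - 1) := by
        rw [X_dvd_iff]
        have h3 : (v ^ (d - 1)).coeff 0 = 1 := by
          rw [coeff_zero_eq_eval_zero, eval_pow, ← coeff_zero_eq_eval_zero, hv0, one_pow]
        rw [coeff_sub, coeff_C_mul, h3, ← hc]
        simp
      obtain ⟨w, hw⟩ := hX
      have hdc : (d : ℝ[X]) * C (c / d) = C c := by
        have hd0 : (d : ℝ) ≠ 0 := by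
          have : (1 : ℝ) ≤ d := by exact_mod_cast hd
          linarith
        rw [← map_natCast (C : ℝ →+* ℝ[X]) d, ← C_mul]
        congr 1
        field_simp
      have hr' : v ^ d = X ^ K * r + s := by
        rw [← hr]
        ring
      have hw' : r = X * w + C c * v ^ (d - 1) := by
        rw [← hw]
        ring
      have e : (v + -(C (c / d) * X ^ K)) ^ d - s
          = X ^ (K + 1) * w + k * (C (c / d)) ^ 2 * X ^ (2 * K) := by
        rw [hk, hr']
        have e2 : (d : ℝ[X]) * v ^ (d - 1) * -(C (c / d) * X ^ K)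
            = - (C c * v ^ (d - 1) * X ^ K) := by
          rw [← hdc]
          ring
        rw [e2]
        have e3 : (X : ℝ[X]) ^ K * r = X ^ K * (X * w + C c * v ^ (d - 1)) := by
          rw [← hw']
        rw [e3]
        ring
      rw [e]
      exact dvd_add (Dvd.intro _ rfl) (Dvd.dvd.mul_left (pow_dvd_pow X (by omega)) _)

theorem exists_root {d N : ℕ} (hd : 1 ≤ d) (hN : 1 ≤ N) (M : ℕ) {p : ℝ[X]}
    (hp : X ^ (N + 1) ∣ p - X) :
    ∃ P : ℝ[X], (∀ i, ¬ (i ≡ 1 [MOD d]) → P.coeff i = 0) ∧ X ^ (d * N + 1) ∣ P - X ∧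
      X ^ M ∣ P ^ d - p.comp (X ^ d) := by
  have hXp : (X : ℝ[X]) ∣ p := by
    have h1 : (X : ℝ[X]) ∣ p - X := dvd_trans (dvd_pow_self X (by omega)) hp
    have h2 := dvd_add h1 (dvd_refl (X : ℝ[X]))
    rwa [sub_add_cancel] at h2
  obtain ⟨s, rfl⟩ := hXp
  have hs : (X : ℝ[X]) ^ N ∣ s - 1 := by
    have h1 : (X : ℝ[X]) * X ^ N ∣ X * (s - 1) := by
      have e1 : (X : ℝ[X]) * X ^ N = X ^ (N + 1) := by ring
      have e2 : (X : ℝ[X]) * (s - 1) = X * s - X := by ring
      rw [e1, e2]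
      exact hp
    exact (mul_dvd_mul_iff_left (X_ne_zero)).1 h1
  obtain ⟨v, hv1, hv2⟩ := Root_newton hd hN hs (max M N) (le_max_right _ _)
  have hcomp : ∀ (q : ℝ[X]) (K : ℕ), X ^ K ∣ q → (X : ℝ[X]) ^ (d * K) ∣ q.comp (X ^ d) := by
    rintro q K ⟨w, rfl⟩
    rw [mul_comp, X_pow_comp, ← pow_mul]
    exact Dvd.intro _ rfl
  refine ⟨X * v.comp (X ^ d), ?_, ?_, ?_⟩
  · intro i hi
    rw [← expand_eq_comp_X_pow]
    rcases i with _ | j
    · simp
    · rw [coeff_X_mul, coeff_expand (by omega)]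
      rw [if_neg]
      intro hdj
      apply hi
      have := (Nat.modEq_zero_iff_dvd).2 hdj
      exact Nat.ModEq.add_right 1 this
  · have e : (X : ℝ[X]) * v.comp (X ^ d) - X = X * (v - 1).comp (X ^ d) := by
      rw [sub_comp, one_comp]
      ring
    rw [e, pow_succ, mul_comm ((X : ℝ[X]) ^ (d * N)) X]
    exact mul_dvd_mul_left X (hcomp _ _ hv1)
  · have e : ((X : ℝ[X]) * v.comp (X ^ d)) ^ d - (X * s).comp (X ^ d)
        = X ^ d * (v ^ d - s).comp (X ^ d) := by
      rw [sub_comp, mul_comp, X_comp, pow_comp, mul_pow]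
      ring
    rw [e]
    refine Dvd.dvd.mul_left ?_ _
    refine dvd_trans (pow_dvd_pow X ?_) (hcomp _ _ hv2)
    calc M ≤ max M N := le_max_left _ _
      _ = 1 * max M N := (one_mul _).symm
      _ ≤ d * max M N := Nat.mul_le_mul_right _ hd

end Pool.Agent.H81.NL
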