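import Pool.Agent.H81.NL.Mat

/-!
# Unitriangular elements of the special linear group, scaling, one-parameter groups
-/

set_option autoImplicit false

namespace Pool.Agent.H81.NL

open Polynomial Filter Topology

/-- The special linear group. -/
abbrev SLn (n : ℕ) : Type := Matrix.SpecialLinearGroup (Fin (n + 2)) ℝ

/-- Underlying matrix. -/
abbrev mt {n : ℕ} (g : SLn n) : Mt n := (g : Matrix (Fin (n + 2)) (Fin (n + 2)) ℝ)

theorem mt_mul {n : ℕ} (g h : SLn n) : mt (g * h) = mt g * mt h := rfl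
theorem mt_one {n : ℕ} : mt (1 : SLn n) = 1 := rfl

theorem mt_inj {n : ℕ} {g h : SLn n} (e : mt g = mt h) : g = h := Subtype.ext e

section

variable {n : ℕ}

/-- The inverse of a unitriangular matrix. -/
theorem exists_inv_Fl {A : Mt n} {i : ℕ} (hi : 1 ≤ i) (h : Fl i (A - 1)) :
    ∃ B : Mt n, A * B = 1 ∧ Fl i (B - 1) := by
  set N := A - 1 with hN
  refine ⟨∑ r ∈ Finset.range (n + 2), (-N) ^ r, ?_, ?_⟩
  · have h1 : (1 - (-N)) * ∑ r ∈ Finset.range (n + 2), (-N) ^ r = 1 - (-N) ^ (n + 2) :=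
      mul_neg_geom_sum _ _
    have h2 : (-N) ^ (n + 2) = 0 :=
      (h.neg.pow (n + 2)).eq_zero (Nat.le_mul_of_pos_right _ hi)
    rw [h2, sub_zero, sub_neg_eq_add, hN, add_sub_cancel] at h1
    exact h1
  · rw [Finset.sum_range_succ', pow_zero, add_sub_cancel_right]
    refine Fl.sum fun r _ => (h.neg.pow (r + 1)).mono ?_
    exact Nat.le_mul_of_pos_left _ (by omega)

theorem Fl_inv {g : SLn n} {i : ℕ} (hi : 1 ≤ i) (h : Fl i (mt g - 1)) :
    Fl i (mt g⁻¹ - 1) := by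
  obtain ⟨B, hB, hB1⟩ := exists_inv_Fl hi h
  have e : mt g⁻¹ = B := by
    have h1 : mt g⁻¹ * mt g = 1 := by rw [← mt_mul, inv_mul_cancel, mt_one]
    calc mt g⁻¹ = mt g⁻¹ * (mt g * B) := by rw [hB, mul_one]
      _ = B := by rw [← mul_assoc, h1, one_mul]
  rw [e]
  exact hB1

theorem Lead_inv {g : SLn n} {j : ℕ} {α : ℝ} (hj : 1 ≤ j) (h : Lead j α (mt g)) :
    Lead j (-α) (mt g⁻¹) := by
  have h1 := Fl_inv hj h.fl
  have h2 : mt g⁻¹ * mt g = 1 := by rw [← mt_mul, inv_mul_cancel, mt_one]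
  have e : mt g⁻¹ - 1 - (-α) • Dm n j =
      -(mt g - 1 - α • Dm n j) - (mt g⁻¹ - 1) * (mt g - 1) := by
    rw [sub_mul, mul_sub, h2, neg_smul]
    noncomm_ring
  unfold Lead
  rw [e]
  exact (Fl.neg h).sub ((h1.mul h.fl).mono (by omega))

theorem Lead_comm {g h : SLn n} {i j : ℕ} {α β : ℝ} (hi : 1 ≤ i) (hj : 1 ≤ j)
    (hg : Lead i α (mt g)) (hh : Lead j β (mt h)) :
    Lead (i + j) (α * β * ((i : ℝ) - j)) (mt (g * h * g⁻¹ * h⁻¹)) := by
  refine Lead.comm hg hh ?_ ⟨mt (h * g)⁻¹, ?_, ?_⟩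
  · rw [← mt_mul, ← mt_mul, ← mt_mul]
    congr 1
    group
  · rw [← mt_mul, ← mt_mul, mul_inv_cancel, mt_one]
  · refine Fl_inv le_rfl ?_
    have e : mt (h * g) - 1 = (mt h - 1) + (mt g - 1) + (mt h - 1) * (mt g - 1) := by
      rw [mt_mul]
      noncomm_ring
    rw [e]
    exact (((hh.fl).mono hj).add ((hg.fl).mono hi)).add ((hh.fl.mul hg.fl).mono (by omega))

/-- The one-parameter group of `x ^ (j + 1) d/dx`. -/
noncomputable def Em (n j : ℕ) (t : ℝ) : Mt n :=
  ∑ r ∈ Finset.range (n + 2), (t ^ r / r.factorial) • Dm n j ^ r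

theorem Lead_Em {j : ℕ} (hj : 1 ≤ j) (t : ℝ) : Lead j t (Em n j t) := by
  unfold Em Lead
  rw [Finset.sum_range_succ', Finset.sum_range_succ']
  simp only [pow_zero, Nat.factorial_zero, Nat.cast_one, div_one, one_smul, zero_add, pow_one,
    Nat.factorial_one]
  rw [add_sub_cancel_right, add_sub_cancel_right]
  refine Fl.sum fun r _ => Fl.smul (((Fl_Dm n j).pow _).mono ?_) _
  nlinarith

/-- The one-parameter group, in `SL`. -/
noncomputable def Es (n j : ℕ) (hj : 1 ≤ j) (t : ℝ) : SLn n :=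
  ⟨Em n j t, det_of_Fl ((Lead_Em hj t).fl.mono hj)⟩

theorem mt_Es {j : ℕ} (hj : 1 ≤ j) (t : ℝ) : mt (Es n j hj t) = Em n j t := rfl

/-! ### Scaling -/

/-- Conjugation by the scaling `x ↦ lam x`. -/
noncomputable def scm (lam : ℝ) (A : Mt n) : Mt n := MP n (C lam⁻¹ * X) * A * MP n (C lam * X)

theorem MP_scale_apply (lam : ℝ) (a b : Fin (n + 2)) :
    MP n (C lam * X) a b = if a = b then lam ^ (a : ℕ) else 0 := by
  rw [MP_apply, mul_pow, ← C_pow, coeff_C_mul, coeff_X_pow]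
  by_cases h : a = b
  · rw [if_pos h, if_pos (by rw [h]), mul_one]
  · rw [if_neg h, if_neg (fun h' => h (Fin.ext h'.symm)), mul_zero]

theorem scm_apply (lam : ℝ) (A : Mt n) (a b : Fin (n + 2)) :
    scm lam A a b = lam⁻¹ ^ (a : ℕ) * A a b * lam ^ (b : ℕ) := by
  unfold scm
  rw [Matrix.mul_apply, Finset.sum_eq_single b, Matrix.mul_apply, Finset.sum_eq_single a]
  · rw [MP_scale_apply, MP_scale_apply, if_pos rfl, if_pos rfl]
  · intro c _ hc
    rw [MP_scale_apply, if_neg hc.symm, zero_mul]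
  · intro h
    exact absurd (Finset.mem_univ _) h
  · intro c _ hc
    rw [MP_scale_apply, if_neg hc, mul_zero]
  · intro h
    exact absurd (Finset.mem_univ _) h

theorem MP_scale_mul {lam : ℝ} (hl : lam ≠ 0) :
    MP n (C lam⁻¹ * X) * MP n (C lam * X) = 1 := by
  rw [← MP_comp _ _ _ (by simp), ← MP_X]
  congr 1
  rw [mul_comp, C_comp, X_comp, ← mul_assoc, ← C_mul, inv_mul_cancel₀ hl, C_1, one_mul]

theorem MP_scale_mul' {lam : ℝ} (hl : lam ≠ 0) :
    MP n (C lam * X) * MP n (C lam⁻¹ * X) = 1 := by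
  have := MP_scale_mul (n := n) (inv_ne_zero hl)
  rwa [inv_inv] at this

/-- Conjugation by the scaling `x ↦ lam x` in `SL`. -/
noncomputable def sc (lam : ℝ) (hl : lam ≠ 0) : SLn n →* SLn n where
  toFun g := ⟨scm lam (mt g), by
    unfold scm
    rw [Matrix.det_mul, Matrix.det_mul, g.2, mul_one, ← Matrix.det_mul, MP_scale_mul hl,
      Matrix.det_one]⟩
  map_one' := by
    apply mt_inj
    show scm lam (mt (1 : SLn n)) = 1
    unfold scm
    rw [mt_one, mul_one, MP_scale_mul hl]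
  map_mul' g h := by
    apply mt_inj
    show scm lam (mt (g * h)) = scm lam (mt g) * scm lam (mt h)
    unfold scm
    rw [mt_mul]
    calc MP n (C lam⁻¹ * X) * (mt g * mt h) * MP n (C lam * X)
        = MP n (C lam⁻¹ * X) * mt g * 1 * mt h * MP n (C lam * X) := by
          rw [mul_one, mul_assoc (MP n (C lam⁻¹ * X)) (mt g) (mt h)]
      _ = _ := by
          rw [← MP_scale_mul' (n := n) hl]
          simp only [mul_assoc]

theorem mt_sc {lam : ℝ} (hl : lam ≠ 0) (g : SLn n) : mt (sc lam hl g) = scm lam (mt g) := rfl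

theorem sc_sc {lam mu : ℝ} (hl : lam ≠ 0) (hm : mu ≠ 0) (g : SLn n) :
    sc mu hm (sc lam hl g) = sc (lam * mu) (mul_ne_zero hl hm) g := by
  apply mt_inj
  ext a b
  rw [mt_sc, mt_sc, mt_sc, scm_apply, scm_apply, scm_apply, mul_inv, mul_pow, mul_pow]
  ring

theorem continuous_sc {lam : ℝ} (hl : lam ≠ 0) : Continuous (sc (n := n) lam hl) := by
  refine continuous_induced_rng.2 ?_
  show Continuous fun g : SLn n => scm lam (mt g)
  unfold scm
  exact (continuous_const.mul continuous_subtype_val).mul continuous_const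

end

end Pool.Agent.H81.NL
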