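import Pool.Agent.H81.NL.Aut
import Pool.Agent.H81.NL.Gr
import Pool.Agent.H81.NL.Root

/-!
# Module Sub: from graded substitutions of high order to all substitutions of high order

PROOF of `law_poly`. Let `n = d * (m + 2) - 2` (write `n + 2 = d * (m + 2)`; `d ≥ 1`; for the types it may be
convenient to take `n = d * m + (2 * d - 2)`) and `ι : Fin (m + 2) → Fin (n + 2)`, `ι i = d * i`. For a
matrix `A : Mt n` let `sub A i j = A (ι i) (ι j)`. If `A` is graded, `sub (A * B) = sub A * sub B`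
(the sum over `c` of `A (ι i) c * B c (ι j)`: only the `c` divisible by `d` contribute, and they are
exactly the `ι k`), `sub 1 = 1`. Let `T` be the subgroup of the `g : SLn n` with `Gr d (mt g)` and
`Gr d (mt g⁻¹)`; `φ : T →* Mt m`, `φ g = sub (mt g)` is a monoid homomorphism, so it gives
`ψ = φ.toHomUnits : T →* (Mt m)ˣ`. For every `a` take `P a` from `exists_root` with `M = n + 2` and
`f a : SLn n` with matrix `MP n (P a)` (determinant one: `det_of_Fl`). Then `IsAut (f a)`; `Gr d (mt (f a))`: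
the coefficients of `P ^ i` vanish outside the class of `i` modulo `d` (induction on `i`, or
`P = X * expand ...`); `Fl (d * N) (mt (f a) - 1)`: `X ^ (d * N + i) ∣ P ^ i - X ^ i` (`i ≥ 1`; from
`P = X * (1 + X ^ (d * N) * R)`); `f a ∈ T` by `Gr.inv`. And `sub (MP n (P a)) = MP m (p a)`:
`(P ^ (d * i)).coeff (d * j) = ((P ^ d) ^ i).coeff (d * j) = ((p.comp (X ^ d)) ^ i).coeff (d * j)` (modulo
`X ^ (n + 2)`, `coeff_eq_of_dvd`, `sub_dvd_pow_sub_pow`) `= ((p ^ i).comp (X ^ d)).coeff (d * j) = (p ^ i).coeff j`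
(`Polynomial.expand`, `Polynomial.coeff_expand_mul'`). So `U a = ψ (f a)` (units with the same value are
equal) and `lift U w = ψ (lift f' w)` (`f' : α → T`) where `(lift f' w : SLn n) = lift f w = 1`
(`FreeGroup.lift` is compatible with homomorphisms: compare the two homomorphisms with `FreeGroup.ext_hom`).
-/

set_option autoImplicit false

namespace Pool.Agent.H81.NL

open Polynomial

theorem Sub_lift_comp {α : Type} {G H : Type*} [Group G] [Group H] (ψ : G →* H) (f : α → G)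
    (w : FreeGroup α) :
    FreeGroup.lift (fun a => ψ (f a)) w = ψ (FreeGroup.lift f w) := by
  have h : FreeGroup.lift (fun a => ψ (f a)) = ψ.comp (FreeGroup.lift f) := by
    ext a
    simp
  rw [h]
  rfl

theorem Sub_coeff_pow {d : ℕ} {P : ℝ[X]} (hP : ∀ i, ¬ (i ≡ 1 [MOD d]) → P.coeff i = 0) (a : ℕ) :
    ∀ j, ¬ (j ≡ a [MOD d]) → (P ^ a).coeff j = 0 := by
  induction a with
  | zero =>
    intro j hj
    rw [pow_zero, coeff_one, if_neg]
    rintro rfl
    exact hj rfl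
  | succ a ih =>
    intro j hj
    rw [pow_succ, coeff_mul]
    refine Finset.sum_eq_zero fun x hx => ?_
    rw [Finset.HasAntidiagonal.mem_antidiagonal] at hx
    by_cases h1 : x.1 ≡ a [MOD d]
    · by_cases h2 : x.2 ≡ 1 [MOD d]
      · refine absurd ?_ hj
        rw [← hx]
        exact h1.add h2
      · rw [hP _ h2, mul_zero]
    · rw [ih _ h1, zero_mul]

theorem Sub_gr {n d : ℕ} {P : ℝ[X]} (hP : ∀ i, ¬ (i ≡ 1 [MOD d]) → P.coeff i = 0) :
    Gr d (MP n P) := by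
  intro a b hab
  rw [MP_apply]
  exact Sub_coeff_pow hP a b fun h => hab h.symm

theorem Sub_dvd_pow {k : ℕ} {P : ℝ[X]} (hP : X ^ (k + 1) ∣ P - X) (a : ℕ) :
    X ^ (k + a) ∣ P ^ a - X ^ a := by
  have hX : X ∣ P := by
    have h1 : (X : ℝ[X]) ∣ P - X := (dvd_pow_self X (by omega)).trans hP
    have h2 := dvd_add h1 (dvd_refl X)
    rwa [sub_add_cancel] at h2
  induction a with
  | zero => simp
  | succ a ih =>
    have e : P ^ (a + 1) - X ^ (a + 1) = P ^ a * (P - X) + (P ^ a - X ^ a) * X := by ring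
    rw [e]
    refine dvd_add ?_ ?_
    · have := mul_dvd_mul (pow_dvd_pow_of_dvd hX a) hP
      rwa [← pow_add, show a + (k + 1) = k + (a + 1) by ring] at this
    · have := mul_dvd_mul ih (dvd_refl X)
      rwa [← pow_succ] at this

theorem Sub_fl {n k : ℕ} {P : ℝ[X]} (hP : X ^ (k + 1) ∣ P - X) : Fl k (MP n P - 1) := by
  intro a b hab
  rw [← MP_X, Matrix.sub_apply, MP_apply, MP_apply, sub_eq_zero]
  exact coeff_eq_of_dvd (Sub_dvd_pow hP a) (by omega)

/-- The indices divisible by `d`. -/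
def Sub_iota {n m d : ℕ} (h : n + 2 = d * (m + 2)) (hd : 1 ≤ d) (i : Fin (m + 2)) : Fin (n + 2) :=
  ⟨d * i, by
    rw [h]
    exact Nat.mul_lt_mul_of_pos_left i.2 hd⟩

/-- The submatrix. -/
def Sub_sub {n m d : ℕ} (h : n + 2 = d * (m + 2)) (hd : 1 ≤ d) (A : Mt n) : Mt m :=
  Matrix.of fun i j => A (Sub_iota h hd i) (Sub_iota h hd j)

theorem Sub_sub_apply {n m d : ℕ} (h : n + 2 = d * (m + 2)) (hd : 1 ≤ d) (A : Mt n)
    (i j : Fin (m + 2)) : Sub_sub h hd A i j = A (Sub_iota h hd i) (Sub_iota h hd j) := rfl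

theorem Sub_iota_inj {n m d : ℕ} (h : n + 2 = d * (m + 2)) (hd : 1 ≤ d) :
    Function.Injective (Sub_iota h hd) := by
  intro i j hij
  have h1 : d * (i : ℕ) = d * (j : ℕ) := congrArg Fin.val hij
  exact Fin.ext (Nat.eq_of_mul_eq_mul_left hd h1)

theorem Sub_sub_one {n m d : ℕ} (h : n + 2 = d * (m + 2)) (hd : 1 ≤ d) :
    Sub_sub h hd (1 : Mt n) = (1 : Mt m) := by
  ext i j
  rw [Sub_sub_apply, Matrix.one_apply, Matrix.one_apply]
  by_cases hij : i = j
  · rw [if_pos hij, if_pos (by rw [hij])]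
  · rw [if_neg hij, if_neg (fun h' => hij (Sub_iota_inj h hd h'))]

theorem Sub_sub_mul {n m d : ℕ} (h : n + 2 = d * (m + 2)) (hd : 1 ≤ d) {A : Mt n} (hA : Gr d A)
    (B : Mt n) : Sub_sub h hd (A * B) = Sub_sub h hd A * Sub_sub h hd B := by
  ext i j
  rw [Sub_sub_apply, Matrix.mul_apply, Matrix.mul_apply]
  symm
  refine Fintype.sum_of_injective (Sub_iota h hd) (Sub_iota_inj h hd) _ _ ?_ ?_
  · intro c hc
    rw [hA _ _, zero_mul]
    intro hcon
    apply hc
    have h1 : d ∣ (c : ℕ) := by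
      have h2 : (c : ℕ) ≡ 0 [MOD d] := by
        refine hcon.symm.trans ?_
        exact (Nat.modEq_zero_iff_dvd).2 ⟨i, rfl⟩
      exact (Nat.modEq_zero_iff_dvd).1 h2
    obtain ⟨k, hk⟩ := h1
    have hk2 : k < m + 2 := by
      have h3 : d * k < d * (m + 2) := by
        rw [← hk, ← h]
        exact c.2
      exact Nat.lt_of_mul_lt_mul_left h3
    exact ⟨⟨k, hk2⟩, Fin.ext hk.symm⟩
  · intro k
    rfl

theorem Sub_sub_MP {n m d : ℕ} (h : n + 2 = d * (m + 2)) (hd : 1 ≤ d) {P p : ℝ[X]}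
    (hP : X ^ (n + 2) ∣ P ^ d - p.comp (X ^ d)) : Sub_sub h hd (MP n P) = MP m p := by
  ext i j
  rw [Sub_sub_apply, MP_apply, MP_apply]
  show (P ^ (d * (i : ℕ))).coeff (d * (j : ℕ)) = _
  rw [pow_mul]
  have h1 : X ^ (n + 2) ∣ (P ^ d) ^ (i : ℕ) - (p.comp (X ^ d)) ^ (i : ℕ) :=
    hP.trans (sub_dvd_pow_sub_pow _ _ _)
  rw [coeff_eq_of_dvd h1 (j := d * (j : ℕ)) (by
    rw [h]
    exact Nat.mul_lt_mul_of_pos_left j.2 hd), ← pow_comp, ← expand_eq_comp_X_pow,
    coeff_expand_mul' hd]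

/-- The group of graded elements. -/
def Sub_T (n d : ℕ) : Subgroup (SLn n) where
  carrier := {g | Gr d (mt g) ∧ Gr d (mt g⁻¹)}
  mul_mem' := by
    intro a b ha hb
    refine ⟨?_, ?_⟩
    · rw [mt_mul]
      exact ha.1.mul hb.1
    · rw [mul_inv_rev, mt_mul]
      exact hb.2.mul ha.2
  one_mem' := by
    refine ⟨?_, ?_⟩
    · rw [mt_one]
      exact Gr.one
    · rw [inv_one, mt_one]
      exact Gr.one
  inv_mem' := by
    intro a ha
    refine ⟨ha.2, ?_⟩
    rw [inv_inv]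
    exact ha.1

/-- Restriction as a homomorphism. -/
def Sub_phi {n m d : ℕ} (h : n + 2 = d * (m + 2)) (hd : 1 ≤ d) : Sub_T n d →* Mt m where
  toFun g := Sub_sub h hd (mt g.1)
  map_one' := Sub_sub_one h hd
  map_mul' g g' := Sub_sub_mul h hd g.2.1 (mt g'.1)

theorem law_poly {d N : ℕ} (hd : 1 ≤ d) (hN : 1 ≤ N) {α : Type} {w : FreeGroup α}
    (hlaw : ∀ (n : ℕ) (f : α → SLn n),
      (∀ a, IsAut (f a) ∧ Gr d (mt (f a)) ∧ Fl (d * N) (mt (f a) - 1)) →
        FreeGroup.lift f w = 1)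
    {p : α → ℝ[X]} (hp : ∀ a, X ^ (N + 1) ∣ p a - X) (m : ℕ) (U : α → (Mt m)ˣ)
    (hU : ∀ a, (U a : Mt m) = MP m (p a)) : FreeGroup.lift U w = 1 := by
  obtain ⟨n, h⟩ : ∃ n, n + 2 = d * (m + 2) := by
    have h2 : 1 * 2 ≤ d * (m + 2) := Nat.mul_le_mul hd (by omega)
    exact ⟨d * (m + 2) - 2, by omega⟩
  choose P hP1 hP2 hP3 using fun a => exists_root (d := d) (N := N) hd hN (n + 2) (hp a)
  have hdN : 1 ≤ d * N := Nat.mul_pos hd hN
  have hfl : ∀ a, Fl (d * N) (MP n (P a) - 1) := fun a => Sub_fl (hP2 a)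
  let f : α → SLn n := fun a => ⟨MP n (P a), det_of_Fl ((hfl a).mono hdN)⟩
  have hf : ∀ a, mt (f a) = MP n (P a) := fun a => rfl
  have hfgr : ∀ a, Gr d (mt (f a)) := fun a => by
    rw [hf]
    exact Sub_gr (hP1 a)
  have hf1 : ∀ a, Fl (d * N) (mt (f a) - 1) := fun a => by
    rw [hf]
    exact hfl a
  have hP0 : ∀ a, (P a).coeff 0 = 0 := fun a => by
    rw [coeff_eq_of_dvd (hP2 a) (j := 0) (by omega), coeff_X_zero]
  have hw : FreeGroup.lift f w = 1 :=
    hlaw n f fun a => ⟨⟨P a, hP0 a, hf a⟩, hfgr a, hf1 a⟩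
  let f' : α → Sub_T n d := fun a =>
    ⟨f a, hfgr a, Gr.inv (hfgr a) ((hf1 a).mono hdN)⟩
  have hw' : FreeGroup.lift f' w = 1 := by
    have h1 := Sub_lift_comp (Sub_T n d).subtype f' w
    have h2 : (fun a => (Sub_T n d).subtype (f' a)) = f := rfl
    rw [h2, hw] at h1
    exact Subtype.ext h1.symm
  have hU' : U = fun a => (Sub_phi h hd).toHomUnits (f' a) := by
    funext a
    apply Units.ext
    rw [hU]
    show MP m (p a) = Sub_sub h hd (mt (f a))
    rw [hf, Sub_sub_MP h hd (hP3 a)]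
  rw [hU', Sub_lift_comp, hw', map_one]

end Pool.Agent.H81.NL
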